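import Pool.Agent.MP6c344.Core
import Pool.Agent.MP27fa52.Duality

open MeasureTheory Set Filter Topology

namespace MP6c344

/-- the test function -/
noncomputable def xx : ℝ → ℂ := (Ioo (0:ℝ) (1/2)).indicator (fun _ => (1:ℂ))

theorem xx_meas : Measurable xx := measurable_const.indicator measurableSet_Ioo

theorem xx_int {w : ℝ → ℝ} (hw : Continuous w) :
    IntegrableOn (fun t => ‖xx t‖ * w t) (Ioi 0) := by
  have hb : IntegrableOn (fun t => ‖xx t‖ * w t) (Ioo (0:ℝ) (1/2)) := by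
    have h1 : IntegrableOn w (Ioo (0:ℝ) (1/2)) :=
      (hw.integrableOn_Icc (a := 0) (b := 1/2)).mono_set Ioo_subset_Icc_self
    refine h1.congr_fun ?_ measurableSet_Ioo
    intro t ht
    simp only [xx, indicator_of_mem ht, norm_one, one_mul]
  refine IntegrableOn.of_forall_sdiff_eq_zero hb measurableSet_Ioi ?_
  intro t ht
  simp only [xx, indicator_of_notMem ht.2, norm_zero, zero_mul]

theorem xx_le {w : ℝ → ℝ} (hw : Continuous w) (hw0 : ∀ t, 0 ≤ w t) (hw1 : ∀ t, w t ≤ 1) :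
    ∫ t in Ioi (0:ℝ), ‖xx t‖ * w t ≤ 1/2 := by
  have h1 : ∀ t ∈ Ioi (0:ℝ), ‖xx t‖ * w t = (Ioo (0:ℝ) (1/2)).indicator w t := by
    intro t _
    by_cases ht : t ∈ Ioo (0:ℝ) (1/2)
    · simp only [xx, indicator_of_mem ht, norm_one, one_mul]
    · simp only [xx, indicator_of_notMem ht, norm_zero, zero_mul]
  rw [setIntegral_congr_fun measurableSet_Ioi h1,
    setIntegral_indicator measurableSet_Ioo, inter_eq_right.2 (fun t ht => ht.1)]
  calc ∫ t in Ioo (0:ℝ) (1/2), w t ≤ ∫ t in Ioo (0:ℝ) (1/2), (1 : ℝ) := by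
        refine setIntegral_mono_on ((hw.integrableOn_Icc (a := 0) (b := 1/2)).mono_set
          Ioo_subset_Icc_self) (by simp) measurableSet_Ioo fun t _ => hw1 t
    _ = 1/2 := by simp

theorem dist_pos {T : ℕ → ℕ} (G : Good T) (s : Finset ℝ) (q : ℝ → ℂ) (hs : ∀ τ ∈ s, 0 < τ) :
    (1/10 : ℝ) ≤ ∫ t in Ioi (0:ℝ), ‖xx t - ∑ τ ∈ s, q τ * (ff T (t - τ) : ℂ)‖ * ww T t := by
  have hpos := G.pos
  have hdvd := G.dvd
  have hbig := G.big
  obtain ⟨w1, w2, w3, w4, w5, _, w7⟩ := weight_facts T hpos hdvd hbig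
  obtain ⟨f1, f2, f3, f4, f5⟩ := ff_facts T hpos hbig w1 w3 w4 w7
  have hTR : ∀ n, (1:ℝ) ≤ T n := fun n => by exact_mod_cast hpos n
  set h : ℝ → ℂ := fun t => ∑ τ ∈ s, q τ * (ff T (t - τ) : ℂ) with hh
  have hhm : Measurable h := by
    rw [hh]
    refine Finset.measurable_fun_sum s fun τ _ => ?_
    exact (Complex.measurable_ofReal.comp (f1.comp (measurable_id.sub_const τ))).const_mul _
  have hp0 : ∀ t, 0 ≤ ww T t := fun t => (Real.exp_pos _).le
  have hxI : IntegrableOn (fun t => ‖xx t‖ * ww T t) (Ioi 0) := xx_int w1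
  have hxle : ∫ t in Ioi (0:ℝ), ‖xx t‖ * ww T t ≤ 1/2 := xx_le w1 hp0 w3
  have hhI : IntegrableOn (fun t => ‖h t‖ * ww T t) (Ioi 0) := by
    have hsum : IntegrableOn (fun t => ∑ τ ∈ s, ‖q τ‖ * (|ff T (t - τ)| * ww T t)) (Ioi 0) :=
      integrable_finsetSum s fun τ hτ => (f5 τ (hs τ hτ)).const_mul _
    refine Integrable.mono' hsum ?_ ?_
    · exact (hhm.norm.mul w1.measurable).aestronglyMeasurable
    · filter_upwards with t
      rw [norm_mul, norm_norm, Real.norm_of_nonneg (hp0 t), hh]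
      simp only
      calc ‖∑ τ ∈ s, q τ * (ff T (t - τ) : ℂ)‖ * ww T t
          ≤ (∑ τ ∈ s, ‖q τ * (ff T (t - τ) : ℂ)‖) * ww T t :=
            mul_le_mul_of_nonneg_right (norm_sum_le _ _) (hp0 t)
        _ = ∑ τ ∈ s, ‖q τ‖ * (|ff T (t - τ)| * ww T t) := by
            rw [Finset.sum_mul]
            apply Finset.sum_congr rfl
            intro τ _
            rw [norm_mul, Complex.norm_real, Real.norm_eq_abs]; ring
  have hdI : IntegrableOn (fun t => ‖xx t - h t‖ * ww T t) (Ioi 0) := by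
    refine Integrable.mono' (hxI.add hhI)
      ((xx_meas.sub hhm).norm.mul w1.measurable).aestronglyMeasurable ?_
    filter_upwards with t
    rw [norm_mul, norm_norm, Real.norm_of_nonneg (hp0 t)]
    simp only [Pi.add_apply]
    rw [← add_mul]
    exact mul_le_mul_of_nonneg_right (norm_sub_le _ _) (hp0 t)
  set N : ℝ := ∫ t in Ioi (0:ℝ), ‖xx t - h t‖ * ww T t with hN
  change (1/10 : ℝ) ≤ N
  have hN0 : 0 ≤ N := integral_nonneg fun t => mul_nonneg (norm_nonneg _) (hp0 t)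
  have hhle : ∫ t in Ioi (0:ℝ), ‖h t‖ * ww T t ≤ 1/2 + N := by
    calc ∫ t in Ioi (0:ℝ), ‖h t‖ * ww T t
        ≤ ∫ t in Ioi (0:ℝ), (‖xx t‖ * ww T t + ‖xx t - h t‖ * ww T t) := by
          refine integral_mono hhI (hxI.add hdI) fun t => ?_
          simp only
          rw [← add_mul]
          refine mul_le_mul_of_nonneg_right ?_ (hp0 t)
          have := norm_sub_le (xx t) (xx t - h t)
          rwa [sub_sub_cancel] at this
      _ = (∫ t in Ioi (0:ℝ), ‖xx t‖ * ww T t) + N := integral_add hxI hdI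
      _ ≤ 1/2 + N := by linarith
  have h1 := core G s hs q (1/2 + N) (by linarith) hhle
  -- the difference
  have Hd : Adm T (fun t => xx t - h t) N :=
    ⟨(xx_meas.sub hhm).aestronglyMeasurable, hdI, le_rfl⟩
  have h0re : |(-1:ℂ).re + ((0:ℕ)+1)| ≤ 1 := by simp
  have h0im : bot 0 < (-1:ℂ).im := by simp [bot]
  have h2 := KK_bound T hpos hdvd hbig Hd 0 (-1) h0re h0im
  have hE : ∀ t ∈ Ioo (0:ℝ) ((T (0+1) : ℝ) / 2), ‖E1 T 0 (-1) (zet T 0 (-1)) t‖ ≤ ww T t := by
    intro t ht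
    exact E1_le T hpos hdvd hbig 0 (-1) _ h0re (zet_le' T 0 (-1) h0re h0im) t ht
  have hsub : Ioo (0:ℝ) ((T (0+1) : ℝ) / 2) ⊆ Ioi 0 := fun t ht => ht.1
  have hgen : ∀ u : ℝ → ℂ, Measurable u → IntegrableOn (fun t => ‖u t‖ * ww T t) (Ioi 0) →
      IntegrableOn (fun t => u t * E1 T 0 (-1) (zet T 0 (-1)) t) (Ioo (0:ℝ) ((T (0+1) : ℝ) / 2)) := by
    intro u hu huI
    refine Integrable.mono' (huI.mono_set hsub)
      (hu.mul (measurable_E1 T 0 (-1) _)).aestronglyMeasurable ?_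
    rw [ae_restrict_iff' measurableSet_Ioo]
    filter_upwards with t ht
    rw [norm_mul]
    exact mul_le_mul_of_nonneg_left (hE t ht) (norm_nonneg _)
  have h3 : KK T 0 (fun t => xx t - h t) (-1) = KK T 0 xx (-1) - KK T 0 h (-1) := by
    unfold KK
    rw [← integral_sub (hgen xx xx_meas hxI) (hgen h hhm hhI)]
    congr 1
    ext t
    ring
  have h4 : (1/4 : ℝ) ≤ ‖KK T 0 xx (-1)‖ := by
    have hT8 : 8 * (T 0 : ℝ) ≤ T (0+1) := by exact_mod_cast hbig 0
    have hT0 := hTR 0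
    have hsub2 : Ioo (0:ℝ) (1/2) ⊆ Ioo (0:ℝ) ((T (0+1) : ℝ) / 2) :=
      Ioo_subset_Ioo le_rfl (by linarith)
    have e1 : ∀ t ∈ Ioo (0:ℝ) ((T (0+1) : ℝ) / 2), xx t * E1 T 0 (-1) (zet T 0 (-1)) t
        = (Ioo (0:ℝ) (1/2)).indicator (fun t => ((Real.exp (-t) : ℝ) : ℂ)) t := by
      intro t _
      by_cases ht : t ∈ Ioo (0:ℝ) (1/2)
      · simp only [xx, indicator_of_mem ht]
        unfold E1 rr
        rw [mm_zero T hpos 0 t ht.1.le (by linarith [ht.2])]
        simp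
      · simp only [xx, indicator_of_notMem ht, zero_mul]
    have e2 : KK T 0 xx (-1) = ((∫ t in Ioo (0:ℝ) (1/2), Real.exp (-t) : ℝ) : ℂ) := by
      unfold KK
      rw [setIntegral_congr_fun measurableSet_Ioo e1, setIntegral_indicator measurableSet_Ioo,
        inter_eq_right.2 hsub2]
      exact integral_ofReal
    rw [e2, Complex.norm_real, Real.norm_eq_abs]
    refine le_trans ?_ (le_abs_self _)
    calc (1/4 : ℝ) = ∫ t in Ioo (0:ℝ) (1/2), (1/2 : ℝ) := by simp; norm_num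
      _ ≤ ∫ t in Ioo (0:ℝ) (1/2), Real.exp (-t) := by
        refine setIntegral_mono_on (by simp) ?_ measurableSet_Ioo ?_
        · have hc : Continuous fun t : ℝ => Real.exp (-t) := by fun_prop
          exact (hc.integrableOn_Icc (a := 0) (b := 1/2)).mono_set Ioo_subset_Icc_self
        · intro t ht
          have := Real.add_one_le_exp (-t)
          linarith [ht.2]
  rw [h3] at h2
  have h5 : ‖KK T 0 xx (-1)‖ ≤ ‖KK T 0 xx (-1) - KK T 0 h (-1)‖ + ‖KK T 0 h (-1)‖ := by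
    have := norm_add_le (KK T 0 xx (-1) - KK T 0 h (-1)) (KK T 0 h (-1))
    rwa [sub_add_cancel] at this
  have h7 : ‖KK T 0 h (-1)‖ ≤ (1/2 + N) / 4 := h1
  linarith

theorem shift_integral (F : ℝ → ℝ) (hF : ∀ t < 0, F t = 0) (g : ℝ → ℂ) (τ : ℝ) (hτ : 0 < τ) :
    ∫ t in Ioi (0:ℝ), (F t : ℂ) * g (t + τ) = ∫ t in Ioi (0:ℝ), (F (t - τ) : ℂ) * g t := by
  have h1 : ∫ t in Ioi (0:ℝ), (F (t - τ) : ℂ) * g t = ∫ t in Ici τ, (F (t - τ) : ℂ) * g t := by
    apply setIntegral_eq_of_subset_of_forall_sdiff_eq_zero measurableSet_Ioi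
      (fun t ht => lt_of_lt_of_le hτ ht)
    intro t ht
    have : t < τ := by
      by_contra hcon
      exact ht.2 (not_lt.1 hcon)
    rw [hF (t - τ) (by linarith)]
    simp
  rw [h1, integral_Ici_eq_integral_Ioi, ← integral_indicator measurableSet_Ioi,
    ← integral_indicator measurableSet_Ioi,
    ← integral_sub_right_eq_self (fun t => (Ioi (0:ℝ)).indicator (fun t => (F t : ℂ) * g (t + τ)) t) τ]
  congr 1
  ext t
  by_cases ht : τ < t
  · rw [indicator_of_mem (show t - τ ∈ Ioi (0:ℝ) from sub_pos.2 ht),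
      indicator_of_mem (show t ∈ Ioi τ from ht), sub_add_cancel]
  · rw [indicator_of_notMem (show t - τ ∉ Ioi (0:ℝ) from fun h => ht (sub_pos.1 h)),
      indicator_of_notMem (show t ∉ Ioi τ from ht)]

/-- a decreasing radical weight `w`, a function `f` nonvanishing near `0`, and a nonzero `g`
annihilating all right translates of `f` -/
theorem radical_package :
    ∃ (w : ℝ → ℝ) (f g : ℝ → ℂ), Continuous w ∧ (∀ t, 0 < w t) ∧ w 0 = 1 ∧ (∀ t, w t ≤ 1) ∧
      (∀ s t, 0 ≤ s → 0 ≤ t → w (s+t) ≤ w s * w t) ∧ AntitoneOn w (Ici 0) ∧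
      Tendsto (fun t => Real.log (w t) / t) atTop atBot ∧
      Measurable f ∧ (∀ t < 0, f t = 0) ∧ (∀ t, 0 ≤ t → t < 1 → f t ≠ 0) ∧
      IntegrableOn (fun t => ‖f t‖ * w t) (Ioi 0) ∧
      Measurable g ∧ (∃ C : ℝ, ∀ t, ‖g t‖ ≤ C * w t) ∧
      (∀ τ > 0, ∫ t in Ioi (0:ℝ), f t * g (t + τ) = 0) ∧
      (∫ t in Ioi (0:ℝ), xx t * g t) ≠ 0 := by
  obtain ⟨T, G⟩ := exists_good
  have hpos := G.pos
  have hdvd := G.dvd
  have hbig := G.big
  obtain ⟨w1, w2, w3, w4, w5, w6, w7⟩ := weight_facts T hpos hdvd hbig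
  obtain ⟨f1, f2, f3, f4, f5⟩ := ff_facts T hpos hbig w1 w3 w4 w7
  have hw0 : ∀ t, 0 < ww T t := fun t => Real.exp_pos _
  have hwm : Measurable (fun t => ((ww T t : ℝ) : ℂ)) :=
    Complex.measurable_ofReal.comp w1.measurable
  obtain ⟨g, g1, ⟨C, g2⟩, g3, g4⟩ := MP27fa52.duality (fun _ => (1:ℝ)) measurable_const
    (fun _ => le_rfl) (fun τ t => (ff T (t - τ) : ℂ) * (ww T t : ℂ))
    (fun τ _ => (Complex.measurable_ofReal.comp (f1.comp (measurable_id.sub_const τ))).mul hwm)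
    (fun τ hτ => by
      refine (f5 τ hτ).congr_fun ?_ measurableSet_Ioi
      intro t _
      simp only
      rw [norm_mul, Complex.norm_real, Complex.norm_real, Real.norm_eq_abs,
        Real.norm_of_nonneg (hw0 t).le, mul_one])
    (fun t => xx t * (ww T t : ℂ)) (xx_meas.mul hwm)
    (by
      refine (xx_int w1).congr_fun ?_ measurableSet_Ioi
      intro t _
      simp only
      rw [norm_mul, Complex.norm_real, Real.norm_of_nonneg (hw0 t).le, mul_one])
    (1/10) (by norm_num)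
    (fun s q hs => by
      refine (dist_pos G s q hs).trans (le_of_eq ?_)
      apply setIntegral_congr_fun measurableSet_Ioi
      intro t _
      simp only
      rw [mul_one]
      have : xx t * (ww T t : ℂ) - ∑ τ ∈ s, q τ * ((ff T (t - τ) : ℂ) * (ww T t : ℂ))
          = (xx t - ∑ τ ∈ s, q τ * (ff T (t - τ) : ℂ)) * (ww T t : ℂ) := by
        rw [sub_mul, Finset.sum_mul]
        congr 1
        apply Finset.sum_congr rfl
        intro τ _
        ring
      rw [this, norm_mul, Complex.norm_real, Real.norm_of_nonneg (hw0 t).le])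
  refine ⟨ww T, fun t => (ff T t : ℂ), fun t => (ww T t : ℂ) * g t, w1, hw0, w2, w3, w4, w5, w6,
    Complex.measurable_ofReal.comp f1, ?_, ?_, ?_, hwm.mul g1, ⟨C, ?_⟩, ?_, ?_⟩
  · intro t ht
    simp only [f2 t ht, Complex.ofReal_zero]
  · intro t h0 h1
    change (ff T t : ℂ) ≠ 0
    rw [f3 t h0 h1]
    exact_mod_cast (Real.exp_pos _).ne'
  · refine f4.congr_fun ?_ measurableSet_Ioi
    intro t _
    simp only
    rw [Complex.norm_real, Real.norm_eq_abs]
  · intro t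
    rw [norm_mul, Complex.norm_real, Real.norm_of_nonneg (hw0 t).le, mul_comm]
    have := g2 t
    rw [mul_one] at this
    exact mul_le_mul_of_nonneg_right this (hw0 t).le
  · intro τ hτ
    rw [shift_integral (ff T) f2 (fun t => (ww T t : ℂ) * g t) τ hτ, ← g3 τ hτ]
    congr 1
    ext t
    ring
  · refine fun h0 => g4 ?_
    rw [← h0]
    congr 1
    ext t
    ring

end MP6c344
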