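import Pool.Agent.MP6c344.Defs

open MeasureTheory Set Filter Topology

set_option linter.unusedSectionVars false

namespace MP6c344

theorem bb_pos (n : ℕ) : 0 < bb n := by unfold bb; positivity

theorem bb_ge (n : ℕ) : 4 ≤ bb n := by
  unfold bb
  have : (1:ℝ) ≤ 5 ^ n := one_le_pow₀ (by norm_num)
  linarith

theorem bb_sum (n : ℕ) : 1 + ∑ i ∈ Finset.range n, bb i = 5 ^ n := by
  induction n with
  | zero => simp
  | succ n ih => rw [Finset.sum_range_succ, ← add_assoc, ih, bb, pow_succ]; ring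

theorem aa_ge (k : ℕ) : 1 ≤ aa k := by
  cases k with
  | zero => simp [aa]
  | succ k =>
    rw [aa]
    have h1 := bb_ge (k+1)
    have h2 : (1:ℝ) ≤ 2 ^ (k+1) := one_le_pow₀ (by norm_num)
    nlinarith

theorem bot_mono (n : ℕ) : bot n ≤ bot (n+1) := by
  cases n with
  | zero => simp only [bot]; linarith [aa_ge 1]
  | succ k =>
    simp only [bot, aa, bb]
    have h1 : (5:ℝ) ^ (k+1) ≤ 5 ^ (k+1+1) := pow_le_pow_right₀ (by norm_num) (by omega)
    have h2 : (2:ℝ) ^ (k+1) ≤ 2 ^ (k+1+1) := pow_le_pow_right₀ (by norm_num) (by omega)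
    have h3 : (0:ℝ) < 5 ^ (k+1) := by positivity
    have h4 : (0:ℝ) < 2 ^ (k+1) := by positivity
    exact mul_le_mul (by linarith) h2 h4.le (by positivity)

theorem norm_one_sub_le (a : ℝ) (ha : 1 ≤ a) (l : ℂ) (hl : l.re ≤ 1) :
    ‖1 - l‖ ≤ ‖(a:ℂ) - l‖ := by
  rw [Complex.norm_def, Complex.norm_def]
  apply Real.sqrt_le_sqrt
  simp only [Complex.normSq_apply, Complex.sub_re, Complex.sub_im, Complex.one_re, Complex.one_im,
    Complex.ofReal_re, Complex.ofReal_im]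
  nlinarith

theorem sub_ne_zero_of_re (a : ℝ) (ha : 1 ≤ a) (l : ℂ) (hl : l.re ≤ 1/2) : (a:ℂ) - l ≠ 0 := by
  intro h
  have := congrArg Complex.re h
  simp at this
  linarith

section
variable (T : ℕ → ℕ)

theorem bet_pos (n : ℕ) : 0 < bet T n := by
  unfold bet
  have := bb_pos n
  positivity

theorem bet_exp (n : ℕ) : bet T n * Real.exp (-(((n:ℝ)+1) * T n)) = bb n := by
  unfold bet
  rw [mul_assoc, ← Real.exp_add]
  simp

theorem chi_le (k : ℕ) (l : ℂ) (hl : l.re ≤ 1/2) : ‖chi T k l‖ ≤ bet T k := by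
  unfold chi
  have hb := bet_pos T k
  have h0 : 0 < ‖(aa k:ℂ) - l‖ := norm_pos_iff.2 (sub_ne_zero_of_re _ (aa_ge k) l hl)
  rw [norm_div, norm_mul, Complex.norm_real, Real.norm_of_nonneg hb.le, div_le_iff₀ h0]
  exact mul_le_mul_of_nonneg_left (norm_one_sub_le _ (aa_ge k) l (by linarith)) hb.le

theorem chi_ge (n : ℕ) (l : ℂ) (hl : l.re ≤ 1/2) (hi : bot n < l.im) :
    bet T n / 2 ≤ ‖chi T n l‖ := by
  unfold chi
  have hb := bet_pos T n
  have h0 : 0 < ‖(aa n:ℂ) - l‖ := norm_pos_iff.2 (sub_ne_zero_of_re _ (aa_ge n) l hl)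
  rw [norm_div, norm_mul, Complex.norm_real, Real.norm_of_nonneg hb.le, le_div_iff₀ h0]
  have key : ‖(aa n : ℂ) - l‖ ≤ 2 * ‖1 - l‖ := by
    cases n with
    | zero =>
      simp only [aa, Complex.ofReal_one]
      linarith [norm_nonneg (1 - l)]
    | succ k =>
      simp only [bot] at hi
      have h1 : ‖(aa (k+1) : ℂ) - l‖ ≤ ‖(((aa (k+1) - 1 : ℝ)) : ℂ)‖ + ‖1 - l‖ := by
        have : (aa (k+1) : ℂ) - l = ((aa (k+1) - 1 : ℝ) : ℂ) + (1 - l) := by push_cast; ring
        rw [this]; exact norm_add_le _ _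
      rw [Complex.norm_real, Real.norm_of_nonneg (by linarith [aa_ge (k+1)])] at h1
      have h2 : |(1 - l).im| ≤ ‖1 - l‖ := Complex.abs_im_le_norm _
      simp only [Complex.sub_im, Complex.one_im, zero_sub, abs_neg] at h2
      have h3 : l.im ≤ |l.im| := le_abs_self _
      linarith
  calc bet T n / 2 * ‖(aa n : ℂ) - l‖ ≤ bet T n / 2 * (2 * ‖1 - l‖) :=
        mul_le_mul_of_nonneg_left key (by positivity)
    _ = bet T n * ‖1 - l‖ := by ring

theorem chi_ne (n : ℕ) (l : ℂ) (hl : l.re ≤ 1/2) (hi : bot n < l.im) : chi T n l ≠ 0 := by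
  have := chi_ge T n l hl hi
  have hb := bet_pos T n
  intro h
  rw [h, norm_zero] at this
  linarith

theorem norm_exp_le (i : ℕ) (s : ℝ) (l : ℂ) (hl : l.re ≤ -s) :
    ‖Complex.exp (l * T i)‖ ≤ Real.exp (-(s * T i)) := by
  rw [Complex.norm_exp]
  apply Real.exp_le_exp.2
  have hT : (0:ℝ) ≤ T i := Nat.cast_nonneg _
  have h3 : (l * (T i : ℂ)).re = l.re * T i := by simp
  rw [h3]
  nlinarith

theorem strip_re (n : ℕ) (l : ℂ) (hl : |l.re + (n+1)| ≤ 1) : l.re ≤ -(n:ℝ) := by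
  have := (abs_le.1 hl).2
  linarith

theorem nsum_le (n : ℕ) (l : ℂ) (hl : l.re ≤ -(n:ℝ)) :
    ‖∑ i ∈ Finset.range n, chi T i l * Complex.exp (l * T i)‖ ≤ ∑ i ∈ Finset.range n, bb i := by
  refine (norm_sum_le _ _).trans (Finset.sum_le_sum fun i hi => ?_)
  have hi' : i + 1 ≤ n := Finset.mem_range.1 hi
  have hi'' : ((i:ℝ) + 1) ≤ n := by exact_mod_cast hi'
  have hn : (0:ℝ) ≤ n := Nat.cast_nonneg n
  rw [norm_mul, ← bet_exp T i]
  exact mul_le_mul (chi_le T i l (by linarith)) (norm_exp_le T i _ l (by linarith))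
    (norm_nonneg _) (bet_pos T i).le

theorem zet_le (n : ℕ) (l : ℂ) (hl : |l.re + (n+1)| ≤ 1) (hi : bot n < l.im) :
    ‖zet T n l‖ ≤ Real.exp (-(((n:ℝ)+1) * T n)) / 2 := by
  have hre := strip_re n l hl
  have hn : (0:ℝ) ≤ n := Nat.cast_nonneg n
  have hb := bet_pos T n
  have h1 := nsum_le T n l hre
  have h2 := chi_ge T n l (by linarith) hi
  have h4 := norm_sub_le (1:ℂ) (∑ i ∈ Finset.range n, chi T i l * Complex.exp (l * T i))
  rw [norm_one] at h4
  have h5 := bb_sum n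
  unfold zet
  rw [norm_div, div_le_iff₀ (by linarith)]
  calc _ ≤ (5:ℝ) ^ n := by linarith
    _ = Real.exp (-(((n:ℝ)+1) * T n)) / 2 * (bet T n / 2) := by
        have := bet_exp T n
        rw [bb] at this
        linear_combination (-(1:ℝ)/4) * this
    _ ≤ _ := mul_le_mul_of_nonneg_left h2 (by positivity)

end

/-- the free characteristic value at two levels -/
noncomputable def ZZ (T : ℕ → ℕ) (n : ℕ) (l z : ℂ) : ℂ :=
  (1 - ∑ i ∈ Finset.range n, chi T i l * Complex.exp (l * T i) - chi T n l * z) / chi T (n+1) l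

section
variable (T : ℕ → ℕ)

theorem ZZ_le (n : ℕ) (l z : ℂ) (hl : |l.re + (n+1)| ≤ 1) (hi : bot (n+1) < l.im)
    (hz : ‖z‖ ≤ Real.exp (-(((n:ℝ)+1) * T n))) :
    ‖ZZ T n l z‖ ≤ Real.exp (-(((n:ℝ)+2) * T (n+1))) := by
  have hre := strip_re n l hl
  have hn : (0:ℝ) ≤ n := Nat.cast_nonneg n
  have hb := bet_pos T (n+1)
  have h1 := nsum_le T n l hre
  have h2 := chi_ge T (n+1) l (by linarith) hi
  have h4 := norm_sub_le (1:ℂ) (∑ i ∈ Finset.range n, chi T i l * Complex.exp (l * T i))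
  rw [norm_one] at h4
  have h5 := bb_sum (n+1)
  rw [Finset.sum_range_succ] at h5
  have h6 : ‖chi T n l * z‖ ≤ bb n := by
    rw [norm_mul, ← bet_exp T n]
    exact mul_le_mul (chi_le T n l (by linarith)) hz (norm_nonneg _) (bet_pos T n).le
  have h7 := norm_sub_le (1 - ∑ i ∈ Finset.range n, chi T i l * Complex.exp (l * T i)) (chi T n l * z)
  unfold ZZ
  rw [norm_div, div_le_iff₀ (by linarith)]
  calc _ ≤ (5:ℝ) ^ (n+1) := by linarith
    _ = Real.exp (-(((n:ℝ)+2) * T (n+1))) / 2 * (bet T (n+1) / 2) := by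
        have := bet_exp T (n+1)
        rw [bb] at this
        have e1 : (((n+1 : ℕ) : ℝ) + 1) = (n:ℝ) + 2 := by push_cast; ring
        rw [e1] at this
        linear_combination (-(1:ℝ)/4) * this
    _ ≤ Real.exp (-(((n:ℝ)+2) * T (n+1))) * (bet T (n+1) / 2) := by
        have := Real.exp_pos (-(((n:ℝ)+2) * T (n+1)))
        apply mul_le_mul_of_nonneg_right _ (by positivity)
        linarith
    _ ≤ _ := mul_le_mul_of_nonneg_left h2 (by positivity)

theorem zet_axis_ge (hbb : ∀ n, bb n * 2 ^ (n+2) ≤ Real.exp ((T n : ℝ) / 4))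
    (n : ℕ) (c : ℂ) (hc : c.re = -((n:ℝ)+1)) (hi : bot n < c.im) :
    Real.exp (-(((n:ℝ)+1) * T n)) / (2 * bb n) ≤ ‖zet T n c‖ := by
  have hn : (0:ℝ) ≤ n := Nat.cast_nonneg n
  have hb := bet_pos T n
  have hs : ‖∑ i ∈ Finset.range n, chi T i c * Complex.exp (c * T i)‖ ≤ 1/2 := by
    have hgeo : ∑ i ∈ Finset.range n, (1/2 : ℝ) ^ (i+2) ≤ 1/2 := by
      have : ∀ n, ∑ i ∈ Finset.range n, (1/2 : ℝ) ^ (i+2) = 1/2 - (1/2)^(n+1) := by
        intro n
        induction n with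
        | zero => simp
        | succ n ih => rw [Finset.sum_range_succ, ih]; ring
      rw [this]
      have : (0:ℝ) < (1/2)^(n+1) := by positivity
      linarith
    refine le_trans ((norm_sum_le _ _).trans (Finset.sum_le_sum fun i hi => ?_)) hgeo
    have hi' : i + 1 ≤ n := Finset.mem_range.1 hi
    have hi'' : ((i:ℝ) + 1) ≤ n := by exact_mod_cast hi'
    have hT : (0:ℝ) ≤ T i := Nat.cast_nonneg _
    rw [norm_mul]
    have h1 := chi_le T i c (by rw [hc]; linarith)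
    have h2 := norm_exp_le T i ((i:ℝ)+2) c (by rw [hc]; linarith)
    have h3 := hbb i
    calc ‖chi T i c‖ * ‖Complex.exp (c * T i)‖ ≤ bet T i * Real.exp (-(((i:ℝ)+2) * T i)) :=
          mul_le_mul h1 h2 (norm_nonneg _) (bet_pos T i).le
      _ = bb i * Real.exp (-(T i : ℝ)) := by
          rw [← bet_exp T i, mul_assoc, ← Real.exp_add]
          congr 2
          ring
      _ ≤ (1/2)^(i+2) := by
          rw [Real.exp_neg, ← div_eq_mul_inv, div_le_iff₀ (Real.exp_pos _), one_div, inv_pow,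
            inv_mul_eq_div, le_div_iff₀ (by positivity)]
          exact h3.trans (Real.exp_le_exp.2 (by linarith))
  have h2 := chi_le T n c (by rw [hc]; linarith)
  have h2' := chi_ge T n c (by rw [hc]; linarith) hi
  have h4 : ‖(1:ℂ)‖ - ‖∑ i ∈ Finset.range n, chi T i c * Complex.exp (c * T i)‖
      ≤ ‖1 - ∑ i ∈ Finset.range n, chi T i c * Complex.exp (c * T i)‖ := norm_sub_norm_le _ _
  rw [norm_one] at h4
  have hbn := bb_pos n
  unfold zet
  rw [norm_div, le_div_iff₀ (by linarith)]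
  calc Real.exp (-(((n:ℝ)+1) * T n)) / (2 * bb n) * ‖chi T n c‖
      ≤ Real.exp (-(((n:ℝ)+1) * T n)) / (2 * bb n) * bet T n :=
        mul_le_mul_of_nonneg_left h2 (by positivity)
    _ = 1/2 := by
        rw [div_mul_eq_mul_div, mul_comm, bet_exp T n]
        field_simp
    _ ≤ _ := by linarith

end

end MP6c344
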