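import Mathlib

open MeasureTheory Set Filter Topology

namespace MP6c344

theorem conv_eq (f k : ℝ → ℂ) (t : ℝ) :
    ∫ s, (Ioi (0:ℝ)).indicator k s * (Ioi (0:ℝ)).indicator f (t - s) =
      ∫ s in Ioo (0:ℝ) t, k s * f (t - s) := by
  rw [← integral_indicator measurableSet_Ioo]
  congr 1
  ext s
  by_cases h1 : 0 < s
  · by_cases h2 : s < t
    · have h3 : 0 < t - s := sub_pos.2 h2
      rw [indicator_of_mem (show s ∈ Ioi (0:ℝ) from h1),
        indicator_of_mem (show t - s ∈ Ioi (0:ℝ) from h3),
        indicator_of_mem (show s ∈ Ioo (0:ℝ) t from ⟨h1, h2⟩)]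
    · have h3 : ¬ (0 < t - s) := fun h => h2 (sub_pos.1 h)
      rw [indicator_of_notMem (show t - s ∉ Ioi (0:ℝ) from h3), mul_zero,
        indicator_of_notMem (show s ∉ Ioo (0:ℝ) t from fun h => h2 h.2)]
  · rw [indicator_of_notMem (show s ∉ Ioi (0:ℝ) from h1), zero_mul,
      indicator_of_notMem (show s ∉ Ioo (0:ℝ) t from fun h => h1 h.1)]

theorem aesm_of (ω : ℝ → ℝ) (hω : ContinuousOn ω (Ici 0)) (hpos : ∀ t, 0 ≤ t → 0 < ω t)
    (f : ℝ → ℂ) (hf : Integrable (fun t => (ω t : ℂ) * f t) (volume.restrict (Ioi (0:ℝ)))) :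
    AEStronglyMeasurable ((Ioi (0:ℝ)).indicator f) volume := by
  rw [aestronglyMeasurable_indicator_iff measurableSet_Ioi]
  have h1 : ContinuousOn (fun t => ((ω t : ℂ))⁻¹) (Ioi 0) := by
    apply ContinuousOn.inv₀
    · exact Complex.continuous_ofReal.comp_continuousOn (hω.mono Ioi_subset_Ici_self)
    · intro t ht
      exact_mod_cast (hpos t (le_of_lt ht)).ne'
  have h2 := (h1.aestronglyMeasurable measurableSet_Ioi).mul hf.aestronglyMeasurable
  refine h2.congr ?_
  filter_upwards [self_mem_ae_restrict measurableSet_Ioi] with t ht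
  have h3 : (ω t : ℂ) ≠ 0 := by exact_mod_cast (hpos t (le_of_lt ht)).ne'
  simp only [Pi.mul_apply]
  field_simp

/-- the annihilator of all left translates of `g` is stable under truncated convolution -/
theorem conv_mem (ω : ℝ → ℝ) (hω : ContinuousOn ω (Ici 0)) (hpos : ∀ t, 0 ≤ t → 0 < ω t)
    (hsub : ∀ s t, 0 ≤ s → 0 ≤ t → ω (s + t) ≤ ω s * ω t)
    (g : ℝ → ℂ) (hg : Measurable g) (C : ℝ) (hgC : ∀ t, 0 ≤ t → ‖g t‖ ≤ C * ω t)
    (f k : ℝ → ℂ)
    (hf : Integrable (fun t => (ω t : ℂ) * f t) (volume.restrict (Ioi (0:ℝ))))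
    (hk : Integrable (fun t => (ω t : ℂ) * k t) (volume.restrict (Ioi (0:ℝ))))
    (hfg : ∀ τ : ℝ, 0 ≤ τ → ∫ t in Ioi (0:ℝ), f t * g (t + τ) = 0) :
    Integrable (fun t => (ω t : ℂ) * ∫ s in Ioo (0:ℝ) t, k s * f (t - s))
      (volume.restrict (Ioi (0:ℝ))) ∧
    ∀ τ : ℝ, 0 ≤ τ → ∫ t in Ioi (0:ℝ), (∫ s in Ioo (0:ℝ) t, k s * f (t - s)) * g (t + τ) = 0 := by
  set F : ℝ → ℂ := (Ioi (0:ℝ)).indicator f with hFdef
  set K : ℝ → ℂ := (Ioi (0:ℝ)).indicator k with hKdef
  have hFm : AEStronglyMeasurable F volume := aesm_of ω hω hpos f hf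
  have hKm : AEStronglyMeasurable K volume := aesm_of ω hω hpos k hk
  set W : ℝ → ℂ := (Ioi (0:ℝ)).indicator (fun t => (ω t : ℂ)) with hWdef
  have hWm : AEStronglyMeasurable W volume := by
    rw [hWdef, aestronglyMeasurable_indicator_iff measurableSet_Ioi]
    exact (Complex.continuous_ofReal.comp_continuousOn
      (hω.mono Ioi_subset_Ici_self)).aestronglyMeasurable measurableSet_Ioi
  have hFi : Integrable ((Ioi (0:ℝ)).indicator (fun t => (ω t : ℂ) * f t)) volume :=
    (integrable_indicator_iff measurableSet_Ioi).2 hf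
  have hKi : Integrable ((Ioi (0:ℝ)).indicator (fun t => (ω t : ℂ) * k t)) volume :=
    (integrable_indicator_iff measurableSet_Ioi).2 hk
  have hH := hKi.convolution_integrand (ContinuousLinearMap.mul ℝ ℂ) hFi
  have hKF : AEStronglyMeasurable (fun p : ℝ × ℝ => K p.2 * F (p.1 - p.2))
      (volume.prod volume) :=
    hKm.convolution_integrand (ContinuousLinearMap.mul ℝ ℂ) hFm
  have hP : Integrable (fun p : ℝ × ℝ => W p.1 * (K p.2 * F (p.1 - p.2)))
      (volume.prod volume) := by
    refine Integrable.mono' hH.norm ?_ ?_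
    · exact hWm.comp_fst.mul hKF
    · refine Filter.Eventually.of_forall ?_
      rintro ⟨t, s⟩
      show ‖W t * (K s * F (t - s))‖ ≤ ‖(Ioi (0:ℝ)).indicator (fun t => (ω t : ℂ) * k t) s *
        (Ioi (0:ℝ)).indicator (fun t => (ω t : ℂ) * f t) (t - s)‖
      by_cases h1 : 0 < s
      · by_cases h2 : 0 < t - s
        · have h3 : 0 < t := by linarith
          rw [hWdef, hKdef, hFdef, indicator_of_mem (show s ∈ Ioi (0:ℝ) from h1),
            indicator_of_mem (show t - s ∈ Ioi (0:ℝ) from h2),
            indicator_of_mem (show t ∈ Ioi (0:ℝ) from h3),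
            indicator_of_mem (show s ∈ Ioi (0:ℝ) from h1),
            indicator_of_mem (show t - s ∈ Ioi (0:ℝ) from h2)]
          have h4 := hsub s (t - s) h1.le h2.le
          rw [add_sub_cancel] at h4
          have e1 : ‖(ω t : ℂ)‖ = ω t := by
            rw [Complex.norm_real, Real.norm_of_nonneg (hpos t h3.le).le]
          have e2 : ‖(ω s : ℂ)‖ = ω s := by
            rw [Complex.norm_real, Real.norm_of_nonneg (hpos s h1.le).le]
          have e3 : ‖(ω (t - s) : ℂ)‖ = ω (t - s) := by
            rw [Complex.norm_real, Real.norm_of_nonneg (hpos (t - s) h2.le).le]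
          rw [norm_mul, norm_mul, norm_mul, norm_mul, norm_mul, e1, e2, e3]
          calc ω t * (‖k s‖ * ‖f (t - s)‖) ≤ (ω s * ω (t - s)) * (‖k s‖ * ‖f (t - s)‖) := by
                apply mul_le_mul_of_nonneg_right h4 (by positivity)
            _ = ω s * ‖k s‖ * (ω (t - s) * ‖f (t - s)‖) := by ring
        · rw [hFdef, indicator_of_notMem (show t - s ∉ Ioi (0:ℝ) from h2), mul_zero, mul_zero,
            norm_zero]
          exact norm_nonneg _
      · rw [hKdef, indicator_of_notMem (show s ∉ Ioi (0:ℝ) from h1), zero_mul, mul_zero,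
          norm_zero]
        exact norm_nonneg _
  constructor
  · have h1 := hP.integral_prod_left
    have h2 : IntegrableOn (fun t => ∫ s, W t * (K s * F (t - s))) (Ioi 0) volume :=
      h1.integrableOn
    refine IntegrableOn.congr_fun h2 ?_ measurableSet_Ioi
    intro t ht
    show ∫ s, W t * (K s * F (t - s)) = (ω t : ℂ) * ∫ s in Ioo (0:ℝ) t, k s * f (t - s)
    rw [integral_const_mul, conv_eq, hWdef, indicator_of_mem ht]
  · intro τ hτ
    have hC : 0 ≤ C := by
      have h0 := (norm_nonneg _).trans (hgC 0 le_rfl)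
      by_contra hc
      push Not at hc
      have := mul_neg_of_neg_of_pos hc (hpos 0 le_rfl)
      linarith
    have hgτ : Measurable (fun t => g (t + τ)) := hg.comp (measurable_id.add_const τ)
    have hQ : Integrable (fun p : ℝ × ℝ => (K p.2 * F (p.1 - p.2)) * g (p.1 + τ))
        (volume.prod volume) := by
      refine Integrable.mono' (hP.norm.const_mul (C * ω τ)) ?_ ?_
      · exact hKF.mul (hgτ.comp measurable_fst).aestronglyMeasurable
      · refine Filter.Eventually.of_forall ?_
        rintro ⟨t, s⟩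
        show ‖(K s * F (t - s)) * g (t + τ)‖ ≤ (C * ω τ) * ‖W t * (K s * F (t - s))‖
        by_cases h1 : 0 < s
        · by_cases h2 : 0 < t - s
          · have h3 : 0 < t := by linarith
            rw [norm_mul, norm_mul (W t), hWdef, indicator_of_mem (show t ∈ Ioi (0:ℝ) from h3)]
            have e1 : ‖(ω t : ℂ)‖ = ω t := by
              rw [Complex.norm_real, Real.norm_of_nonneg (hpos t h3.le).le]
            rw [e1]
            have h5 : ‖g (t + τ)‖ ≤ C * (ω t * ω τ) :=
              (hgC _ (by linarith)).trans (mul_le_mul_of_nonneg_left (hsub t τ h3.le hτ) hC)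
            calc ‖K s * F (t - s)‖ * ‖g (t + τ)‖ ≤ ‖K s * F (t - s)‖ * (C * (ω t * ω τ)) :=
                  mul_le_mul_of_nonneg_left h5 (norm_nonneg _)
              _ = (C * ω τ) * (ω t * ‖K s * F (t - s)‖) := by ring
          · rw [hFdef, indicator_of_notMem (show t - s ∉ Ioi (0:ℝ) from h2), mul_zero, zero_mul,
              mul_zero, norm_zero, mul_zero]
        · rw [hKdef, indicator_of_notMem (show s ∉ Ioi (0:ℝ) from h1), zero_mul, zero_mul,
            mul_zero, norm_zero, mul_zero]
    have hswap := integral_integral_swap (f := fun t s => (K s * F (t - s)) * g (t + τ)) hQ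
    have hL : ∫ t in Ioi (0:ℝ), (∫ s in Ioo (0:ℝ) t, k s * f (t - s)) * g (t + τ) =
        ∫ t, ∫ s, (K s * F (t - s)) * g (t + τ) := by
      rw [← integral_indicator measurableSet_Ioi]
      congr 1
      ext t
      rw [integral_mul_const, conv_eq]
      by_cases ht : 0 < t
      · rw [indicator_of_mem (show t ∈ Ioi (0:ℝ) from ht)]
      · rw [indicator_of_notMem (show t ∉ Ioi (0:ℝ) from ht), Ioo_eq_empty ht]
        simp
    rw [hL, hswap]
    have hz : ∀ s, ∫ t, (K s * F (t - s)) * g (t + τ) = 0 := by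
      intro s
      by_cases hs : 0 < s
      · have e1 : ∀ t, (K s * F (t - s)) * g (t + τ) =
            K s * (fun u => F u * g (u + (s + τ))) (t - s) := by
          intro t
          show (K s * F (t - s)) * g (t + τ) = K s * (F (t - s) * g (t - s + (s + τ)))
          have : t - s + (s + τ) = t + τ := by ring
          rw [this]; ring
        simp_rw [e1]
        rw [integral_const_mul, integral_sub_right_eq_self (fun u => F u * g (u + (s + τ))) s]
        have e2 : ∫ u, F u * g (u + (s + τ)) = ∫ u in Ioi (0:ℝ), f u * g (u + (s + τ)) := by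
          rw [← integral_indicator measurableSet_Ioi]
          congr 1
          ext u
          by_cases hu : 0 < u
          · rw [hFdef, indicator_of_mem (show u ∈ Ioi (0:ℝ) from hu),
              indicator_of_mem (show u ∈ Ioi (0:ℝ) from hu)]
          · rw [hFdef, indicator_of_notMem (show u ∉ Ioi (0:ℝ) from hu),
              indicator_of_notMem (show u ∉ Ioi (0:ℝ) from hu), zero_mul]
        rw [e2, hfg (s + τ) (by linarith), mul_zero]
      · have e1 : ∀ t, (K s * F (t - s)) * g (t + τ) = 0 := by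
          intro t
          rw [hKdef, indicator_of_notMem (show s ∉ Ioi (0:ℝ) from hs), zero_mul, zero_mul]
        simp_rw [e1]
        simp
    simp_rw [hz]
    simp

end MP6c344
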