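import Pool.Agent.MP6c344.Defs

open MeasureTheory Set Filter Topology

namespace MP6c344


theorem ff_bb_pos (k : ℕ) : 0 < bb k := by unfold bb; positivity

theorem ff_aa_pos (k : ℕ) : 0 < aa k := by
  cases k with
  | zero => show (0:ℝ) < 1; norm_num
  | succ k => show 0 < bb (k+1) * 2 ^ (k+1); have := ff_bb_pos (k+1); positivity

theorem ff_bet_pos (T : ℕ → ℕ) (k : ℕ) : 0 < bet T k :=
  mul_pos (ff_bb_pos k) (Real.exp_pos _)

theorem ff_real_tail {b : ℝ} (hb : 0 < b) {τ : ℝ} (hτ : 0 < τ) :
    IntegrableOn (fun t : ℝ => if τ ≤ t then Real.exp (-b * (t - τ)) else 0) (Ioi 0) ∧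
    ∫ t in Ioi (0:ℝ), (if τ ≤ t then Real.exp (-b * (t - τ)) else 0) = 1 / b := by
  have hfun : (fun t : ℝ => if τ ≤ t then Real.exp (-b * (t - τ)) else 0)
      = indicator (Ici τ) (fun t : ℝ => Real.exp (b * τ) * Real.exp (-b * t)) := by
    funext t
    simp only [indicator, mem_Ici]
    split_ifs
    · rw [← Real.exp_add]
      congr 1
      ring
    · rfl
  have hI : IntegrableOn (fun t : ℝ => Real.exp (b * τ) * Real.exp (-b * t)) (Ici τ) := by
    rw [integrableOn_Ici_iff_integrableOn_Ioi]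
    exact (integrableOn_exp_mul_Ioi (by linarith) τ).const_mul _
  rw [hfun]
  refine ⟨((integrable_indicator_iff measurableSet_Ici).2 hI).integrableOn, ?_⟩
  rw [setIntegral_indicator measurableSet_Ici]
  have hset : Ioi (0:ℝ) ∩ Ici τ = Ici τ := by
    ext x
    simp only [mem_inter_iff, mem_Ioi, mem_Ici]
    constructor
    · exact fun h => h.2
    · exact fun h => ⟨lt_of_lt_of_le hτ h, h⟩
  rw [hset, integral_Ici_eq_integral_Ioi, integral_const_mul,
    integral_exp_mul_Ioi (by linarith : -b < 0) τ]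
  rw [mul_div_assoc', mul_neg, ← Real.exp_add]
  have : b * τ + -b * τ = 0 := by ring
  rw [this, Real.exp_zero]
  field_simp

theorem ff_T_ge {T : ℕ → ℕ} (hpos : ∀ n, 1 ≤ T n) (hbig : ∀ n, 8 * T n ≤ T (n+1)) (k : ℕ) :
    k + 1 ≤ T k := by
  induction k with
  | zero => exact hpos 0
  | succ k ih => have := hbig k; omega

theorem ff_echo_nonneg (T : ℕ → ℕ) (k : ℕ) (t : ℝ) : 0 ≤ echo T k t := by
  unfold echo
  split_ifs
  · exact mul_nonneg (ff_bet_pos T k).le (Real.exp_pos _).le
  · exact le_rfl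

theorem ff_echo_eq_zero {T : ℕ → ℕ} {k : ℕ} {t : ℝ} (h : t < T k) : echo T k t = 0 := by
  unfold echo
  rw [if_neg (not_le.2 h)]

theorem ff_echo_summable {T : ℕ → ℕ} (hpos : ∀ n, 1 ≤ T n) (hbig : ∀ n, 8 * T n ≤ T (n+1)) (t : ℝ) :
    Summable (fun k => echo T k t) := by
  refine summable_of_ne_finset_zero (s := Finset.range ⌈t⌉₊) ?_
  intro k hk
  rw [Finset.mem_range, not_lt] at hk
  refine ff_echo_eq_zero ?_
  have h1 : t ≤ (⌈t⌉₊ : ℝ) := Nat.le_ceil t
  have h2 : ((⌈t⌉₊ : ℕ) : ℝ) ≤ k := by exact_mod_cast hk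
  have h3 : ((k + 1 : ℕ) : ℝ) ≤ T k := by exact_mod_cast ff_T_ge hpos hbig k
  push_cast at h3
  linarith

theorem ff_echo_measurable (T : ℕ → ℕ) (k : ℕ) : Measurable (echo T k) := by
  unfold echo
  refine Measurable.ite measurableSet_Ici ?_ measurable_const
  fun_prop

theorem ff_tsum_echo_measurable {T : ℕ → ℕ} (hpos : ∀ n, 1 ≤ T n)
    (hbig : ∀ n, 8 * T n ≤ T (n+1)) : Measurable (fun t => ∑' k, echo T k t) := by
  refine measurable_of_tendsto_metrizable
    (f := fun (n : ℕ) (t : ℝ) => ∑ k ∈ Finset.range n, echo T k t) ?_ ?_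
  · intro n
    exact Finset.measurable_fun_sum _ (fun k _ => ff_echo_measurable T k)
  · rw [tendsto_pi_nhds]
    intro t
    exact (ff_echo_summable hpos hbig t).hasSum.tendsto_sum_nat

theorem ff_first_measurable : Measurable (fun t : ℝ => if 0 ≤ t then Real.exp (-t) else 0) := by
  refine Measurable.ite measurableSet_Ici ?_ measurable_const
  fun_prop

theorem ff_tsum_echo_nonneg (T : ℕ → ℕ) (t : ℝ) : 0 ≤ ∑' k, echo T k t :=
  tsum_nonneg (fun k => ff_echo_nonneg T k t)

/-- facts on the function `ff T`; `ww T` enters only through its listed properties -/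
theorem ff_facts (T : ℕ → ℕ) (hpos : ∀ n, 1 ≤ T n) (hbig : ∀ n, 8 * T n ≤ T (n+1))
    (hc : Continuous (ww T)) (hle : ∀ t, ww T t ≤ 1)
    (hsub : ∀ s t, 0 ≤ s → 0 ≤ t → ww T (s+t) ≤ ww T s * ww T t)
    (hTk : ∀ k : ℕ, ww T (T k) = Real.exp (-(((k:ℝ)+1) * T k))) :
    Measurable (ff T) ∧ (∀ t < 0, ff T t = 0) ∧ (∀ t, 0 ≤ t → t < 1 → ff T t = Real.exp (-t)) ∧
    IntegrableOn (fun t => |ff T t| * ww T t) (Ioi 0) ∧
    (∀ τ > 0, IntegrableOn (fun t => |ff T (t - τ)| * ww T t) (Ioi 0)) := by
  have hm : Measurable (ww T) := hc.measurable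
  have hmeas : Measurable (ff T) := ff_first_measurable.sub (ff_tsum_echo_measurable hpos hbig)
  have hTpos : ∀ k, (0:ℝ) < T k := fun k => by
    have := hpos k
    exact_mod_cast (by omega : 0 < T k)
  have hT1 : ∀ k, (1:ℝ) ≤ T k := fun k => by exact_mod_cast hpos k
  have hneg : ∀ t < 0, ff T t = 0 := by
    intro t ht
    unfold ff
    rw [if_neg (not_le.2 ht)]
    have : (fun k => echo T k t) = fun _ => 0 := by
      funext k
      exact ff_echo_eq_zero (lt_trans ht (hTpos k))
    rw [this]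
    simp
  have hone : ∀ t, 0 ≤ t → t < 1 → ff T t = Real.exp (-t) := by
    intro t ht0 ht
    unfold ff
    rw [if_pos ht0]
    have : (fun k => echo T k t) = fun _ => 0 := by
      funext k
      exact ff_echo_eq_zero (lt_of_lt_of_le ht (hT1 k))
    rw [this]
    simp
  have hphi0 : ∀ t, 0 ≤ ww T t := fun t => (Real.exp_pos _).le
  have hMk : ∀ k, bb k * (1 / aa k) ≤ 4 * (1/2) ^ k := by
    intro k
    cases k with
    | zero =>
      have h0 : aa 0 = 1 := rfl
      have h1 : bb 0 = 4 := by unfold bb; norm_num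
      rw [h0, h1]; norm_num
    | succ k =>
      have h0 : aa (k+1) = bb (k+1) * 2 ^ (k+1) := rfl
      have h1 := ff_bb_pos (k+1)
      have h2 : bb (k+1) * (1 / aa (k+1)) = (1/2) ^ (k+1) := by
        rw [h0, one_div_pow]
        field_simp
      rw [h2]
      have : (0:ℝ) < (1/2) ^ (k+1) := by positivity
      linarith
  have hechophi : ∀ k t, echo T k t * ww T t ≤
      bb k * (if (T k : ℝ) ≤ t then Real.exp (-(aa k) * (t - T k)) else 0) := by
    intro k t
    unfold echo
    split_ifs with h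
    · have hp : ww T t ≤ Real.exp (-(((k:ℝ)+1) * T k)) := by
        have h2 := hsub (T k) (t - T k) (hTpos k).le (by linarith)
        have h3 := hle (t - T k)
        have h4 : (T k : ℝ) + (t - T k) = t := by ring
        rw [h4, hTk] at h2
        refine le_trans h2 ?_
        exact mul_le_of_le_one_right (Real.exp_pos _).le h3
      have hb := (ff_bet_pos T k).le
      have he := (Real.exp_pos (-(aa k) * (t - T k))).le
      calc bet T k * Real.exp (-(aa k) * (t - T k)) * ww T t
          ≤ bet T k * Real.exp (-(aa k) * (t - T k)) * Real.exp (-(((k:ℝ)+1) * T k)) :=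
            mul_le_mul_of_nonneg_left hp (mul_nonneg hb he)
        _ = bb k * (Real.exp (((k:ℝ)+1) * T k) * Real.exp (-(((k:ℝ)+1) * T k))) *
              Real.exp (-(aa k) * (t - T k)) := by unfold bet; ring
        _ = bb k * Real.exp (-(aa k) * (t - T k)) := by
            rw [← Real.exp_add, add_neg_cancel, Real.exp_zero, mul_one]
    · simp
  -- integrability of the sum of echos times the weight
  have hEphi : IntegrableOn (fun t => (∑' k, echo T k t) * ww T t) (Ioi 0) := by
    refine ⟨((ff_tsum_echo_measurable hpos hbig).mul hm).aestronglyMeasurable, ?_⟩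
    rw [hasFiniteIntegral_iff_ofReal (ae_of_all _ (fun t =>
      mul_nonneg (ff_tsum_echo_nonneg T t) (hphi0 t)))]
    have e1 : ∀ t, ENNReal.ofReal ((∑' k, echo T k t) * ww T t)
        = ∑' k, ENNReal.ofReal (echo T k t * ww T t) := by
      intro t
      rw [← tsum_mul_right]
      exact ENNReal.ofReal_tsum_of_nonneg
        (fun k => mul_nonneg (ff_echo_nonneg T k t) (hphi0 t))
        ((ff_echo_summable hpos hbig t).mul_right _)
    simp_rw [e1]
    have hme : ∀ k, AEMeasurable (fun t => ENNReal.ofReal (echo T k t * ww T t))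
        (volume.restrict (Ioi (0:ℝ))) :=
      fun k => ((ff_echo_measurable T k).mul hm).ennreal_ofReal.aemeasurable
    rw [lintegral_tsum hme]
    have e2 : ∀ k, ∫⁻ t in Ioi (0:ℝ), ENNReal.ofReal (echo T k t * ww T t)
        ≤ ENNReal.ofReal (4 * (1/2) ^ k) := by
      intro k
      have hb : 0 < aa k := ff_aa_pos k
      have ht := ff_real_tail hb (hTpos k)
      calc ∫⁻ t in Ioi (0:ℝ), ENNReal.ofReal (echo T k t * ww T t)
          ≤ ∫⁻ t in Ioi (0:ℝ), ENNReal.ofReal (bb k *
              (if (T k : ℝ) ≤ t then Real.exp (-(aa k) * (t - T k)) else 0)) :=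
            lintegral_mono (fun t => ENNReal.ofReal_le_ofReal (hechophi k t))
        _ = ENNReal.ofReal (∫ t in Ioi (0:ℝ), bb k *
              (if (T k : ℝ) ≤ t then Real.exp (-(aa k) * (t - T k)) else 0)) := by
            refine (ofReal_integral_eq_lintegral_ofReal (ht.1.const_mul _) ?_).symm
            refine ae_of_all _ (fun t => ?_)
            have := (ff_bb_pos k).le
            simp only [Pi.zero_apply]
            split_ifs <;> positivity
        _ ≤ ENNReal.ofReal (4 * (1/2) ^ k) := by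
            refine ENNReal.ofReal_le_ofReal ?_
            rw [integral_const_mul, ht.2]
            exact hMk k
    have hsum : Summable (fun k : ℕ => (4:ℝ) * (1/2) ^ k) := summable_geometric_two.mul_left 4
    calc ∑' k, ∫⁻ t in Ioi (0:ℝ), ENNReal.ofReal (echo T k t * ww T t)
        ≤ ∑' k : ℕ, ENNReal.ofReal ((4:ℝ) * (1/2) ^ k) := ENNReal.tsum_le_tsum e2
      _ = ENNReal.ofReal (∑' k : ℕ, (4:ℝ) * (1/2) ^ k) :=
          (ENNReal.ofReal_tsum_of_nonneg (fun k => by positivity) hsum).symm
      _ < ⊤ := ENNReal.ofReal_lt_top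
  have hDphi : IntegrableOn (fun t : ℝ => (if 0 ≤ t then Real.exp (-t) else 0) * ww T t)
      (Ioi 0) := by
    have hb : IntegrableOn (fun t : ℝ => Real.exp (-1 * t)) (Ioi 0) :=
      integrableOn_exp_mul_Ioi (by norm_num) 0
    refine Integrable.mono' hb (ff_first_measurable.mul hm).aestronglyMeasurable ?_
    refine (ae_restrict_iff' measurableSet_Ioi).2 (ae_of_all _ (fun t ht => ?_))
    rw [mem_Ioi] at ht
    rw [if_pos ht.le, Real.norm_eq_abs, abs_of_nonneg (mul_nonneg (Real.exp_pos _).le (hphi0 t))]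
    rw [neg_one_mul]
    exact mul_le_of_le_one_right (Real.exp_pos _).le (hle t)
  have hffphi : IntegrableOn (fun t => |ff T t| * ww T t) (Ioi 0) := by
    have h2 : IntegrableOn (fun t => ff T t * ww T t) (Ioi 0) := by
      have := hDphi.sub hEphi
      refine this.congr (ae_of_all _ (fun t => ?_))
      simp only [Pi.sub_apply, ff]
      ring
    refine h2.norm.congr (ae_of_all _ (fun t => ?_))
    show ‖ff T t * ww T t‖ = |ff T t| * ww T t
    rw [norm_mul, Real.norm_eq_abs, Real.norm_eq_abs, abs_of_nonneg (hphi0 t)]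
  refine ⟨hmeas, hneg, hone, hffphi, ?_⟩
  intro τ hτ
  have hind : (fun t => |ff T t| * ww T t) = indicator (Ici 0) (fun t => |ff T t| * ww T t) := by
    funext t
    simp only [indicator, mem_Ici]
    split_ifs with h
    · rfl
    · rw [hneg t (not_le.1 h)]
      simp
  have hglob : Integrable (fun t => |ff T t| * ww T t) := by
    rw [hind, integrable_indicator_iff measurableSet_Ici, integrableOn_Ici_iff_integrableOn_Ioi]
    exact hffphi
  have hsh := hglob.comp_sub_right τ
  refine (Integrable.mono' hsh ?_ (ae_of_all _ (fun t => ?_))).integrableOn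
  · exact (((hmeas.comp (measurable_id.sub_const τ)).abs).mul hm).aestronglyMeasurable
  · rw [Real.norm_eq_abs, abs_of_nonneg (mul_nonneg (abs_nonneg _) (hphi0 t))]
    rcases lt_or_ge t τ with h | h
    · rw [hneg (t - τ) (by linarith)]
      simp
    · have h2 := hsub τ (t - τ) hτ.le (by linarith)
      rw [show τ + (t - τ) = t by ring] at h2
      have h3 : ww T t ≤ ww T (t - τ) :=
        h2.trans (mul_le_of_le_one_left (hphi0 _) (hle τ))
      exact mul_le_mul_of_nonneg_left h3 (abs_nonneg _)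

end MP6c344
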