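import Pool.Agent.MP6c344.Defs

open MeasureTheory Set Filter Topology

namespace MP6c344


lemma tl_piece (a s s' A : ℝ) (ha : 1 ≤ a) (hss : s < s') (w l : ℂ) (hl : l.re ≤ 0)
    (F : ℝ → ℂ) (hF : Measurable F)
    (h1 : ∀ t : ℝ, s < t → t < s' → F t = w * Complex.exp (l * (t - s)))
    (h2 : ∀ t, s' ≤ t → ‖F t‖ ≤ A)
    (h3 : ∀ t : ℝ, s' ≤ t → ‖w * Complex.exp (l * (t - s))‖ ≤ A) :
    IntegrableOn (fun t : ℝ => (Real.exp (-a * (t - s)) : ℂ) * F t) (Ici s) ∧
    ‖(∫ t in Ici s, (Real.exp (-a * (t - s)) : ℂ) * F t) - w / (a - l)‖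
      ≤ 2 * A * Real.exp (s - s') := by
  have hA : 0 ≤ A := (norm_nonneg _).trans (h2 s' le_rfl)
  set G : ℝ → ℂ := fun t => w * Complex.exp (l * (t - s)) with hG
  have hre : (l - a).re < 0 := by
    rw [Complex.sub_re, Complex.ofReal_re]
    linarith
  have hne : l - a ≠ 0 := by
    intro h
    rw [h] at hre
    simp at hre
  have hGeq : ∀ t : ℝ, (Real.exp (-a * (t - s)) : ℂ) * G t =
      (w * Complex.exp (-((l - a) * s))) * Complex.exp ((l - a) * t) := by
    intro t
    simp only [hG]
    rw [Complex.ofReal_exp, mul_left_comm, mul_assoc, ← Complex.exp_add, ← Complex.exp_add]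
    congr 2
    push_cast
    ring
  have hGint : IntegrableOn (fun t : ℝ => (Real.exp (-a * (t - s)) : ℂ) * G t) (Ioi s) := by
    simp_rw [hGeq]
    exact (integrableOn_exp_mul_complex_Ioi hre s).const_mul _
  have hGval : ∫ t in Ioi s, (Real.exp (-a * (t - s)) : ℂ) * G t = w / (a - l) := by
    simp_rw [hGeq]
    rw [integral_const_mul, integral_exp_mul_complex_Ioi hre, Complex.exp_neg]
    have h4 : (a : ℂ) - l ≠ 0 := by
      intro h
      apply hne
      linear_combination -h
    have h5 := Complex.exp_ne_zero ((l - a) * s)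
    field_simp
    ring
  -- the difference
  set D : ℝ → ℂ := fun t => (Real.exp (-a * (t - s)) : ℂ) * F t -
    (Real.exp (-a * (t - s)) : ℂ) * G t with hD
  have hDm : Measurable D := by
    simp only [hD, hG]
    fun_prop
  let B : ℝ → ℝ := (Ici s').indicator (fun t => 2 * A * Real.exp s * Real.exp (-1 * t))
  have hDB : ∀ t ∈ Ioi s, ‖D t‖ ≤ B t := by
    intro t ht
    by_cases hts : t ∈ Ici s'
    · simp only [B, indicator_of_mem hts]
      simp only [hD]
      rw [← mul_sub, norm_mul, Complex.norm_real, Real.norm_eq_abs, abs_of_pos (Real.exp_pos _)]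
      have e1 : ‖F t - G t‖ ≤ 2 * A := by
        calc ‖F t - G t‖ ≤ ‖F t‖ + ‖G t‖ := norm_sub_le _ _
          _ ≤ _ := by have := h2 t hts; have := h3 t hts; simp only [hG]; linarith
      have e2 : Real.exp (-a * (t - s)) ≤ Real.exp (-(t - s)) := by
        apply Real.exp_le_exp.2
        have : s < t := ht
        nlinarith
      calc Real.exp (-a * (t - s)) * ‖F t - G t‖ ≤ Real.exp (-(t - s)) * (2 * A) := by
            gcongr
        _ = 2 * A * Real.exp s * Real.exp (-1 * t) := by
            rw [mul_comm, mul_assoc (2 * A), ← Real.exp_add]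
            congr 2
            ring
    · simp only [B, indicator_of_notMem hts]
      have : F t = G t := h1 t ht (by simpa using hts)
      simp only [hD]
      rw [this]
      simp
  have hBint : IntegrableOn B (Ioi s) := by
    simp only [B]
    rw [IntegrableOn, integrable_indicator_iff measurableSet_Ici, IntegrableOn,
      Measure.restrict_restrict measurableSet_Ici, ← IntegrableOn]
    have : Ici s' ∩ Ioi s = Ici s' := by
      apply inter_eq_left.2
      intro t ht
      exact lt_of_lt_of_le hss ht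
    rw [this, integrableOn_Ici_iff_integrableOn_Ioi]
    exact (integrableOn_exp_mul_Ioi (by norm_num) s').const_mul _
  have hBval : ∫ t in Ioi s, B t = 2 * A * Real.exp (s - s') := by
    simp only [B]
    rw [setIntegral_indicator measurableSet_Ici]
    have : Ioi s ∩ Ici s' = Ici s' := by
      apply inter_eq_right.2
      intro t ht
      exact lt_of_lt_of_le hss ht
    rw [this, integral_Ici_eq_integral_Ioi, integral_const_mul, integral_exp_mul_Ioi (by norm_num),
      sub_eq_add_neg s, Real.exp_add]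
    have : -s' = -1 * s' := by ring
    rw [this]
    ring
  have hDint : IntegrableOn D (Ioi s) := by
    refine Integrable.mono' hBint hDm.aestronglyMeasurable ?_
    rw [ae_restrict_iff' measurableSet_Ioi]
    exact Eventually.of_forall hDB
  have hDn : ‖∫ t in Ioi s, D t‖ ≤ 2 * A * Real.exp (s - s') := by
    rw [← hBval]
    refine norm_integral_le_of_norm_le hBint ?_
    rw [ae_restrict_iff' measurableSet_Ioi]
    exact Eventually.of_forall hDB
  have hFint : IntegrableOn (fun t : ℝ => (Real.exp (-a * (t - s)) : ℂ) * F t) (Ioi s) := by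
    refine (hDint.add hGint).congr ?_
    refine Eventually.of_forall fun t => ?_
    simp [hD]
  refine ⟨(integrableOn_Ici_iff_integrableOn_Ioi).2 hFint, ?_⟩
  rw [integral_Ici_eq_integral_Ioi, ← hGval, ← integral_sub hFint hGint]
  exact hDn

lemma tl_bb_ge (k : ℕ) : 4 ≤ bb k := by
  unfold bb
  have : (1:ℝ) ≤ 5 ^ k := one_le_pow₀ (by norm_num)
  linarith

lemma tl_aa_one_le (k : ℕ) : 1 ≤ aa k := by
  cases k with
  | zero => simp [aa]
  | succ k =>
    simp only [aa]
    have h1 := tl_bb_ge (k+1)
    have h2 : (1:ℝ) ≤ 2 ^ (k+1) := one_le_pow₀ (by norm_num)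
    nlinarith

lemma tl_sum_half (m : ℕ) : ∑ k ∈ Finset.range m, (1/2 : ℝ)^(k+1) = 1 - (1/2)^m := by
  induction m with
  | zero => norm_num
  | succ m ih =>
    rw [Finset.sum_range_succ, ih]
    ring

lemma tl_T_ge (T : ℕ → ℕ) (hpos : ∀ n, 1 ≤ T n) (hbig : ∀ n, 8 * T n ≤ T (n+1)) (n : ℕ) :
    8^n ≤ T n := by
  induction n with
  | zero => simpa using hpos 0
  | succ n ih =>
    have := hbig n
    rw [pow_succ]
    omega

/-- the transform of level `n` of a translate of `ff T` is tiny on its characteristic curve -/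
theorem top_level (T : ℕ → ℕ) (hpos : ∀ n, 1 ≤ T n) (hdvd : ∀ n, T n ∣ T (n+1))
    (hbig : ∀ n, 8 * T n ≤ T (n+1))
    (hbb : ∀ n, bb n * 2 ^ (n+2) ≤ Real.exp ((T n : ℝ) / 4))
    (hbet : ∀ n, bet T n * Real.exp (T n) * 2 ^ (n+1) ≤ Real.exp ((T (n+1) : ℝ) / 4))
    (hle : ∀ t, ww T t ≤ 1) (hanti : AntitoneOn (ww T) (Ici 0))
    (hTk : ∀ k : ℕ, ww T (T k) = Real.exp (-(((k:ℝ)+1) * T k)))
    (hE : ∀ (n : ℕ) (l z : ℂ), |l.re + (n+1)| ≤ 1 → ‖z‖ ≤ Real.exp (-(((n:ℝ)+1) * T n)) →
      ∀ t ∈ Ioo (0:ℝ) ((T (n+1) : ℝ) / 2), ‖E1 T n l z t‖ ≤ ww T t)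
    (hchi : ∀ (n : ℕ) (l : ℂ), |l.re + (n+1)| ≤ 1 → bot n < l.im → chi T n l ≠ 0)
    (hzet : ∀ (n : ℕ) (l : ℂ), |l.re + (n+1)| ≤ 1 → bot n < l.im →
      ‖zet T n l‖ ≤ Real.exp (-(((n:ℝ)+1) * T n)))
    (τ : ℝ) (hτ : 0 < τ) :
    ∀ᶠ n : ℕ in atTop, ∀ l : ℂ, |l.re + (n+1)| ≤ 1 → bot n < l.im →
      ‖KK T n (fun t => (ff T (t - τ) : ℂ)) l‖ ≤ 6 * Real.exp τ * Real.exp (-(T n : ℝ) / 4) := by
  classical
  have hTpos : ∀ n, (0:ℝ) < T n := fun n => by exact_mod_cast hpos n
  have hmono : Monotone T := monotone_nat_of_le_succ (fun n => by have := hbig n; omega)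
  have hge : ∀ n, (8:ℝ)^n ≤ T n := fun n => by exact_mod_cast tl_T_ge T hpos hbig n
  have hev : ∀ᶠ n : ℕ in atTop, τ < 1/4 * (T n : ℝ) := by
    have h1 : Tendsto (fun n : ℕ => (8:ℝ)^n) atTop atTop :=
      tendsto_pow_atTop_atTop_of_one_lt (by norm_num)
    filter_upwards [h1.eventually_gt_atTop (4 * τ)] with n hn
    have := hge n
    linarith
  filter_upwards [hev] with n hn l hl hlb
  have hl0 : l.re ≤ 0 := by
    have h1 := (abs_le.1 hl).2
    have h2 : (0:ℝ) ≤ n := Nat.cast_nonneg n
    linarith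
  have hTn := hTpos n
  obtain ⟨z, hz⟩ : ∃ z, z = zet T n l := ⟨_, rfl⟩
  obtain ⟨A, hA⟩ : ∃ A : ℝ, A = Real.exp (-(((n:ℝ)+1) * T n)) := ⟨_, rfl⟩
  have hApos : 0 < A := by rw [hA]; exact Real.exp_pos _
  have hzn : ‖z‖ ≤ A := by rw [hz, hA]; exact hzet n l hl hlb
  obtain ⟨S, hS⟩ : ∃ S : ℝ, S = (T (n+1) : ℝ)/2 := ⟨_, rfl⟩
  have hTS : 3/2 * (T n : ℝ) ≤ S := by
    have : (8:ℝ) * T n ≤ T (n+1) := by exact_mod_cast hbig n
    rw [hS]
    linarith
  let E : ℝ → ℂ := fun t => z ^ (mm T n t).toNat * Complex.exp (l * rr T n t)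
  let F : ℝ → ℂ := (Ioo 0 S).indicator E
  have hm0 : ∀ t, 0 ≤ t → t < (T n : ℝ)/2 → mm T n t = 0 := by
    intro t ht0 ht
    unfold mm
    rw [round_eq, Int.floor_eq_iff]
    have h1 : 0 ≤ t / (T n : ℝ) := by positivity
    have h2 : t / (T n : ℝ) < 1/2 := by
      rw [div_lt_iff₀ hTn]
      linarith
    push_cast
    constructor <;> linarith
  have hm1 : ∀ t, (T n : ℝ)/2 ≤ t → t < 3/2 * (T n : ℝ) → mm T n t = 1 := by
    intro t ht0 ht
    unfold mm
    rw [round_eq, Int.floor_eq_iff]
    have h1 : 1/2 ≤ t / (T n : ℝ) := by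
      rw [le_div_iff₀ hTn]
      linarith
    have h2 : t / (T n : ℝ) < 3/2 := by
      rw [div_lt_iff₀ hTn]
      linarith
    push_cast
    constructor <;> linarith
  have hE0 : ∀ t, 0 ≤ t → t < (T n : ℝ)/2 → E t = Complex.exp (l * t) := by
    intro t ht0 ht
    simp only [E, rr, hm0 t ht0 ht]
    simp
  have hE1 : ∀ t, (T n : ℝ)/2 ≤ t → t < 3/2 * (T n : ℝ) →
      E t = z * Complex.exp (l * (t - T n)) := by
    intro t ht0 ht
    simp only [E, rr, hm1 t ht0 ht]
    simp
  have hEn : ∀ t, 0 < t → t < S → ‖E t‖ ≤ ww T t := by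
    intro t ht0 ht
    exact hE n l z hl (by rw [← hA]; exact hzn) t ⟨ht0, by rw [← hS]; exact ht⟩
  have hEm : Measurable E := by
    have h1 : Measurable (fun t : ℝ => mm T n t) := by
      have : (fun t : ℝ => mm T n t) = fun t : ℝ => ⌊t / (T n : ℝ) + 1/2⌋ := by
        funext t
        unfold mm
        rw [round_eq]
      rw [this]
      fun_prop
    have h2 : Measurable (fun m : ℤ => z ^ m.toNat) := measurable_from_top
    have h3 : Measurable (fun m : ℤ => (m : ℝ)) := measurable_from_top
    have h4 : Measurable (fun t : ℝ => rr T n t) := by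
      unfold rr
      exact measurable_id.sub ((h3.comp h1).mul measurable_const)
    have h5 : Measurable (fun t : ℝ => ((rr T n t : ℝ) : ℂ)) :=
      Complex.measurable_ofReal.comp h4
    exact (h2.comp h1).mul (Complex.measurable_exp.comp (measurable_const.mul h5))
  have hFm : Measurable F := hEm.indicator measurableSet_Ioo
  have hFn : ∀ t, ‖F t‖ ≤ 1 := by
    intro t
    by_cases ht : t ∈ Ioo 0 S
    · simp only [F, indicator_of_mem ht]
      exact (hEn t ht.1 ht.2).trans (hle t)
    · simp only [F, indicator_of_notMem ht, norm_zero]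
      norm_num
  have hFnA : ∀ t, (T n : ℝ) ≤ t → ‖F t‖ ≤ A := by
    intro t htT
    by_cases ht : t ∈ Ioo 0 S
    · simp only [F, indicator_of_mem ht]
      refine (hEn t ht.1 ht.2).trans ?_
      rw [hA, ← hTk n]
      exact hanti (show (0:ℝ) ≤ T n from hTn.le) (show (0:ℝ) ≤ t from ht.1.le) htT
    · simp only [F, indicator_of_notMem ht, norm_zero]
      exact hApos.le
  have hF0 : ∀ t, 0 < t → t < (T n : ℝ)/2 → F t = Complex.exp (l * t) := by
    intro t ht0 ht
    have : t ∈ Ioo 0 S := ⟨ht0, by linarith⟩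
    simp only [F, indicator_of_mem this]
    exact hE0 t ht0.le ht
  have hF1 : ∀ t, (T n : ℝ)/2 ≤ t → t < 3/2 * (T n : ℝ) →
      F t = z * Complex.exp (l * (t - T n)) := by
    intro t ht0 ht
    have : t ∈ Ioo 0 S := ⟨by linarith, by linarith⟩
    simp only [F, indicator_of_mem this]
    exact hE1 t ht0 ht
  -- the pieces
  have hexpn : ∀ t : ℝ, 0 ≤ t → ‖Complex.exp (l * t)‖ ≤ 1 := by
    intro t ht
    rw [Complex.norm_exp]
    apply Real.exp_le_one_iff.2
    have : (l * (t : ℂ)).re = l.re * t := by simp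
    rw [this]
    nlinarith
  have piece0 : ∀ (a s : ℝ), 1 ≤ a → 0 ≤ s → s < (T n : ℝ)/2 → 
      IntegrableOn (fun t : ℝ => (Real.exp (-a * (t - s)) : ℂ) * F t) (Ici s) ∧
      ‖(∫ t in Ici s, (Real.exp (-a * (t - s)) : ℂ) * F t) - Complex.exp (l * s) / (a - l)‖
        ≤ 2 * 1 * Real.exp (s - (T n : ℝ)/2) := by
    intro a s ha hs hsT
    have hcomb : ∀ t : ℝ, Complex.exp (l * s) * Complex.exp (l * (t - s)) =
        Complex.exp (l * t) := by
      intro t
      rw [← Complex.exp_add]
      congr 1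
      ring
    refine tl_piece a s _ 1 ha hsT _ l hl0 F hFm ?_ (fun t _ => hFn t) ?_
    · intro t ht ht2
      rw [hcomb]
      exact hF0 t (lt_of_le_of_lt hs ht) ht2
    · intro t ht
      rw [hcomb]
      exact hexpn t (by linarith)
  have piece1 : 
      IntegrableOn (fun t : ℝ => (Real.exp (-(aa n) * (t - (T n + τ))) : ℂ) * F t)
        (Ici (T n + τ)) ∧
      ‖(∫ t in Ici ((T n : ℝ) + τ), (Real.exp (-(aa n) * (t - (T n + τ))) : ℂ) * F t) -
          (z * Complex.exp (l * τ)) / (aa n - l)‖
        ≤ 2 * A * Real.exp ((T n + τ) - 3/2 * (T n : ℝ)) := by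
    have hcomb : ∀ t : ℝ, (z * Complex.exp (l * τ)) *
        Complex.exp (l * (t - ((T n + τ : ℝ) : ℂ))) = z * Complex.exp (l * (t - T n)) := by
      intro t
      rw [mul_assoc, ← Complex.exp_add]
      congr 2
      push_cast
      ring
    have := tl_piece (aa n) (T n + τ) (3/2 * T n) A (tl_aa_one_le n) (by linarith)
      (z * Complex.exp (l * τ)) l hl0 F hFm ?_ (fun t ht => hFnA t (by linarith)) ?_
    · simpa only [Complex.ofReal_add, Complex.ofReal_natCast] using this
    · intro t ht ht2
      rw [hcomb]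
      exact hF1 t (by linarith) ht2
    · intro t ht
      rw [hcomb, norm_mul]
      have h1 : ‖Complex.exp (l * ((t:ℂ) - T n))‖ ≤ 1 := by
        have := hexpn (t - T n) (by linarith)
        push_cast at this
        exact this
      calc ‖z‖ * ‖Complex.exp (l * ((t:ℂ) - T n))‖ ≤ A * 1 := by gcongr
        _ = A := mul_one _
  let P : ℝ → ℝ → ℂ := fun a s => ∫ t in Ici s, (Real.exp (-a * (t - s)) : ℂ) * F t
  have hPint : ∀ k ∈ Finset.range (n+1), IntegrableOn
      (fun t : ℝ => (Real.exp (-(aa k) * (t - (T k + τ))) : ℂ) * F t) (Ici (T k + τ)) := by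
    intro k hk
    rcases Nat.lt_succ_iff_lt_or_eq.1 (Finset.mem_range.1 hk) with h | h
    · have h8 : (8:ℝ) * T k ≤ T n := by
        have h1 : T (k+1) ≤ T n := hmono h
        have h2 := hbig k
        exact_mod_cast h2.trans h1
      have := (piece0 (aa k) (T k + τ) (tl_aa_one_le k) (by positivity) (by linarith)).1
      exact this
    · subst h
      exact piece1.1
  have hKK : KK T n (fun t => (ff T (t - τ) : ℂ)) l =
      P 1 τ - ∑ k ∈ Finset.range (n+1), (bet T k : ℂ) * P (aa k) (T k + τ) := by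
    have h1 : KK T n (fun t => (ff T (t - τ) : ℂ)) l =
        ∫ t in Ioo 0 S, (ff T (t - τ) : ℂ) * E t := by
      unfold KK E1
      simp only [E]
      rw [hS, hz]
    rw [h1, ← integral_indicator measurableSet_Ioo]
    have h2 : ∀ t : ℝ, (Ioo 0 S).indicator (fun t => (ff T (t - τ) : ℂ) * E t) t =
        (Ici τ).indicator (fun t : ℝ => (Real.exp (-1 * (t - τ)) : ℂ) * F t) t -
        ∑ k ∈ Finset.range (n+1), (bet T k : ℂ) * (Ici ((T k : ℝ) + τ)).indicator
          (fun t : ℝ => (Real.exp (-(aa k) * (t - (T k + τ))) : ℂ) * F t) t := by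
      intro t
      by_cases ht : t ∈ Ioo 0 S
      · have hFE : F t = E t := by simp only [F, indicator_of_mem ht]
        rw [indicator_of_mem ht]
        have h3 : ∑' k, echo T k (t - τ) = ∑ k ∈ Finset.range (n+1), echo T k (t - τ) := by
          apply tsum_eq_sum
          intro k hk
          unfold echo
          rw [if_neg]
          intro h
          have h4 : n + 1 ≤ k := by
            by_contra h5
            exact hk (Finset.mem_range.2 (by omega))
          have h5 : (T (n+1) : ℝ) ≤ T k := by exact_mod_cast hmono h4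
          have h6 := ht.2
          have h7 := hTpos (n+1)
          rw [hS] at h6
          linarith
        unfold ff
        rw [h3]
        push_cast
        rw [sub_mul, Finset.sum_mul]
        congr 1
        · by_cases htτ : τ ≤ t
          · rw [if_pos (by linarith), indicator_of_mem (show t ∈ Ici τ from htτ), hFE]
            congr 2
            push_cast
            ring_nf
          · rw [if_neg (by linarith), indicator_of_notMem (show t ∉ Ici τ from htτ)]
            simp
        · apply Finset.sum_congr rfl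
          intro k _
          unfold echo
          by_cases htτ : (T k : ℝ) + τ ≤ t
          · rw [if_pos (by linarith), indicator_of_mem (show t ∈ Ici ((T k : ℝ) + τ) from htτ), hFE]
            push_cast
            rw [mul_assoc]
            congr 3
            ring
          · rw [if_neg (by linarith), indicator_of_notMem (show t ∉ Ici ((T k : ℝ) + τ) from htτ)]
            simp
      · have hF0 : F t = 0 := by simp only [F, indicator_of_notMem ht]
        rw [indicator_of_notMem ht]
        have h3 : ∀ (A : Set ℝ) (g : ℝ → ℂ), A.indicator (fun t => g t * F t) t = 0 := by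
          intro A g
          by_cases hA : t ∈ A
          · rw [indicator_of_mem hA, hF0, mul_zero]
          · rw [indicator_of_notMem hA]
        simp only [h3, mul_zero, Finset.sum_const_zero, sub_zero]
    simp_rw [h2]
    rw [integral_sub, integral_finsetSum]
    · congr 1
      · rw [integral_indicator measurableSet_Ici]
      · apply Finset.sum_congr rfl
        intro k hk
        rw [integral_const_mul, integral_indicator measurableSet_Ici]
    · intro k hk
      exact ((integrable_indicator_iff measurableSet_Ici).2 (hPint k hk)).const_mul _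
    · have := (piece0 1 τ le_rfl hτ.le (by linarith)).1
      exact (integrable_indicator_iff measurableSet_Ici).2 this
    · apply integrable_finsetSum
      intro k hk
      exact ((integrable_indicator_iff measurableSet_Ici).2 (hPint k hk)).const_mul _
  -- main terms
  have hne : ∀ k, (aa k : ℂ) - l ≠ 0 := by
    intro k h
    have h1 : ((aa k : ℂ) - l).re = 0 := by rw [h]; rfl
    simp at h1
    have := tl_aa_one_le k
    linarith
  have hne1 : (1 : ℂ) - l ≠ 0 := by
    intro h
    have h1 : ((1 : ℂ) - l).re = 0 := by rw [h]; rfl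
    simp at h1
    linarith
  have hmain : Complex.exp (l * τ) / (1 - l) -
      ((∑ k ∈ Finset.range n, (bet T k : ℂ) *
        (Complex.exp (l * ((T k : ℝ) + τ : ℝ)) / (aa k - l))) +
        (bet T n : ℂ) * ((z * Complex.exp (l * τ)) / (aa n - l))) = 0 := by
    have h1 : chi T n l * z = 1 - ∑ i ∈ Finset.range n, chi T i l * Complex.exp (l * T i) := by
      rw [hz, zet]
      exact mul_div_cancel₀ _ (hchi n l hl hlb)
    have h2 : ∀ k, (bet T k : ℂ) * (Complex.exp (l * ((T k : ℝ) + τ : ℝ)) / (aa k - l)) =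
        Complex.exp (l * τ) / (1 - l) * (chi T k l * Complex.exp (l * T k)) := by
      intro k
      unfold chi
      have : Complex.exp (l * ((T k : ℝ) + τ : ℝ)) =
          Complex.exp (l * τ) * Complex.exp (l * T k) := by
        rw [← Complex.exp_add]
        congr 1
        push_cast
        ring
      rw [this]
      have := hne k
      field_simp
    have h3 : (bet T n : ℂ) * ((z * Complex.exp (l * τ)) / (aa n - l)) =
        Complex.exp (l * τ) / (1 - l) * (chi T n l * z) := by
      unfold chi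
      have := hne n
      field_simp
    rw [Finset.sum_congr rfl (fun k _ => h2 k), ← Finset.mul_sum, h3, h1]
    ring
  -- errors
  have hbb0 : ∀ k, 0 < bb k := fun k => lt_of_lt_of_le (by norm_num) (tl_bb_ge k)
  have hbet0 : ∀ k, 0 < bet T k := fun k => by
    unfold bet
    have := hbb0 k
    positivity
  have e0 : ‖P 1 τ - Complex.exp (l * τ) / (1 - l)‖ ≤
      2 * (Real.exp τ * Real.exp (-(T n : ℝ) / 4)) := by
    have := (piece0 1 τ le_rfl hτ.le (by linarith)).2
    simp only [P]
    rw [Complex.ofReal_one] at this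
    refine this.trans ?_
    rw [mul_one, ← Real.exp_add]
    gcongr
    linarith
  have ek : ∀ k ∈ Finset.range n, ‖(bet T k : ℂ) * P (aa k) (T k + τ) -
      (bet T k : ℂ) * (Complex.exp (l * ((T k : ℝ) + τ : ℝ)) / (aa k - l))‖ ≤
      (1/2 : ℝ)^(k+1) * (2 * (Real.exp τ * Real.exp (-(T n : ℝ) / 4))) := by
    intro k hk
    have h8' : (T (k+1) : ℝ) ≤ T n := by exact_mod_cast hmono (Finset.mem_range.1 hk)
    have h8 : (8:ℝ) * T k ≤ T n := by
      have h1 : T (k+1) ≤ T n := hmono (Finset.mem_range.1 hk)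
      have h2 := hbig k
      exact_mod_cast h2.trans h1
    have := (piece0 (aa k) (T k + τ) (tl_aa_one_le k) (by positivity) (by linarith)).2
    rw [← mul_sub, norm_mul, Complex.norm_real, Real.norm_eq_abs, abs_of_pos (hbet0 k)]
    have hb : bet T k * Real.exp (T k) ≤ (1/2 : ℝ)^(k+1) * Real.exp ((T n : ℝ) / 4) := by
      have h1 := hbet k
      have h2 : Real.exp ((T (k+1) : ℝ) / 4) ≤ Real.exp ((T n : ℝ) / 4) := by
        apply Real.exp_le_exp.2
        linarith
      have h3 : (1/2 : ℝ)^(k+1) * 2^(k+1) = 1 := by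
        rw [← mul_pow]
        norm_num
      calc bet T k * Real.exp (T k) = (1/2 : ℝ)^(k+1) *
            (bet T k * Real.exp (T k) * 2^(k+1)) := by
            calc bet T k * Real.exp (T k) = (bet T k * Real.exp (T k)) * ((1/2 : ℝ)^(k+1) * 2^(k+1)) := by
                  rw [h3, mul_one]
              _ = _ := by ring
        _ ≤ (1/2 : ℝ)^(k+1) * Real.exp ((T n : ℝ) / 4) := by
            gcongr
            exact h1.trans h2
    calc bet T k * ‖P (aa k) (T k + τ) - Complex.exp (l * ((T k : ℝ) + τ : ℝ)) / (aa k - l)‖ ≤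
          bet T k * (2 * 1 * Real.exp ((T k + τ) - (T n : ℝ)/2)) :=
          mul_le_mul_of_nonneg_left this (hbet0 k).le
      _ = (bet T k * Real.exp (T k)) * (2 * (Real.exp τ * Real.exp (-(T n : ℝ)/2))) := by
          have e : Real.exp ((T k + τ) - (T n : ℝ)/2) =
              Real.exp (T k) * (Real.exp τ * Real.exp (-(T n : ℝ)/2)) := by
            rw [← Real.exp_add, ← Real.exp_add]
            congr 1
            ring
          rw [e]
          ring
      _ ≤ ((1/2 : ℝ)^(k+1) * Real.exp ((T n : ℝ) / 4)) *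
          (2 * (Real.exp τ * Real.exp (-(T n : ℝ)/2))) := by gcongr
      _ = (1/2 : ℝ)^(k+1) * (2 * (Real.exp τ * Real.exp (-(T n : ℝ) / 4))) := by
          have e : Real.exp (-(T n : ℝ) / 4) = Real.exp ((T n : ℝ) / 4) * Real.exp (-(T n : ℝ)/2) := by
            rw [← Real.exp_add]
            congr 1
            ring
          rw [e]
          ring
  have en : ‖(bet T n : ℂ) * P (aa n) (T n + τ) -
      (bet T n : ℂ) * ((z * Complex.exp (l * τ)) / (aa n - l))‖ ≤
      2 * (Real.exp τ * Real.exp (-(T n : ℝ) / 4)) := by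
    rw [← mul_sub, norm_mul, Complex.norm_real, Real.norm_eq_abs, abs_of_pos (hbet0 n)]
    have h1 := piece1.2
    push_cast at h1
    have hbA : bet T n * A = bb n := by
      rw [hA]
      unfold bet
      rw [mul_assoc, ← Real.exp_add]
      simp
    have hbn : bb n ≤ Real.exp ((T n : ℝ) / 4) := by
      refine le_trans ?_ (hbb n)
      have h2 : (1:ℝ) ≤ 2 ^ (n+2) := one_le_pow₀ (by norm_num)
      have := hbb0 n
      nlinarith
    calc bet T n * ‖P (aa n) (T n + τ) - (z * Complex.exp (l * τ)) / (aa n - l)‖ ≤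
          bet T n * (2 * A * Real.exp ((T n + τ) - 3/2 * (T n : ℝ))) := by
          refine mul_le_mul_of_nonneg_left ?_ (hbet0 n).le
          simp only [P]
          push_cast
          exact h1
      _ = (bet T n * A) * (2 * (Real.exp τ * Real.exp (-(T n : ℝ)/2))) := by
          have e : Real.exp ((T n + τ) - 3/2 * (T n : ℝ)) =
              Real.exp τ * Real.exp (-(T n : ℝ)/2) := by
            rw [← Real.exp_add]
            congr 1
            ring
          rw [e]
          ring
      _ ≤ Real.exp ((T n : ℝ) / 4) * (2 * (Real.exp τ * Real.exp (-(T n : ℝ)/2))) := by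
          rw [hbA]
          gcongr
      _ = _ := by
          have e : Real.exp (-(T n : ℝ) / 4) = Real.exp ((T n : ℝ) / 4) * Real.exp (-(T n : ℝ)/2) := by
            rw [← Real.exp_add]
            congr 1
            ring
          rw [e]
          ring
  have hfin : KK T n (fun t => (ff T (t - τ) : ℂ)) l =
      (P 1 τ - Complex.exp (l * τ) / (1 - l)) -
      ((∑ k ∈ Finset.range n, ((bet T k : ℂ) * P (aa k) (T k + τ) -
        (bet T k : ℂ) * (Complex.exp (l * ((T k : ℝ) + τ : ℝ)) / (aa k - l)))) +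
      ((bet T n : ℂ) * P (aa n) (T n + τ) -
      (bet T n : ℂ) * ((z * Complex.exp (l * τ)) / (aa n - l)))) := by
    rw [hKK, Finset.sum_range_succ, Finset.sum_sub_distrib]
    linear_combination hmain
  rw [hfin]
  have hC : 0 < Real.exp τ * Real.exp (-(T n : ℝ) / 4) := by positivity
  calc _ ≤ 2 * (Real.exp τ * Real.exp (-(T n : ℝ) / 4)) +
        ((∑ k ∈ Finset.range n, (1/2 : ℝ)^(k+1) *
          (2 * (Real.exp τ * Real.exp (-(T n : ℝ) / 4)))) +
        2 * (Real.exp τ * Real.exp (-(T n : ℝ) / 4))) := by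
        refine (norm_sub_le _ _).trans (add_le_add e0 ((norm_add_le _ _).trans (add_le_add ?_ en)))
        exact norm_sum_le_of_le _ ek
    _ = (4 + 2 * ∑ k ∈ Finset.range n, (1/2 : ℝ)^(k+1)) *
        (Real.exp τ * Real.exp (-(T n : ℝ) / 4)) := by
        rw [← Finset.sum_mul]
        ring
    _ ≤ 6 * (Real.exp τ * Real.exp (-(T n : ℝ) / 4)) := by
        rw [tl_sum_half]
        have : (0:ℝ) < (1/2)^n := by positivity
        nlinarith
    _ = 6 * Real.exp τ * Real.exp (-(T n : ℝ) / 4) := by ring

end MP6c344
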