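import Mathlib

open MeasureTheory Set Filter Topology

namespace MP6c344

/-- size of the `k`-th echo relative to the weight at the `k`-th period -/
noncomputable def bb (k : ℕ) : ℝ := 4 * 5 ^ k

/-- decay rate of the `k`-th echo -/
noncomputable def aa : ℕ → ℝ
  | 0 => 1
  | (k+1) => bb (k+1) * 2 ^ (k+1)

/-- amplitude of the `k`-th echo -/
noncomputable def bet (T : ℕ → ℕ) (k : ℕ) : ℝ := bb k * Real.exp ((k+1) * T k)

/-- number of the period of length `T n` -/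
noncomputable def mm (T : ℕ → ℕ) (n : ℕ) (t : ℝ) : ℤ := round (t / (T n : ℝ))

/-- signed distance to the nearest multiple of `T n` -/
noncomputable def rr (T : ℕ → ℕ) (n : ℕ) (t : ℝ) : ℝ := t - mm T n t * (T n : ℝ)

/-- minus the logarithm of the weight -/
noncomputable def theta (T : ℕ → ℕ) (t : ℝ) : ℝ := ∑' k, (|t| - |rr T k t|)

/-- the weight -/
noncomputable def ww (T : ℕ → ℕ) (t : ℝ) : ℝ := Real.exp (-theta T t)

/-- the `k`-th echo -/
noncomputable def echo (T : ℕ → ℕ) (k : ℕ) (t : ℝ) : ℝ :=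
  if (T k : ℝ) ≤ t then bet T k * Real.exp (-(aa k) * (t - T k)) else 0

/-- the function whose translates are considered -/
noncomputable def ff (T : ℕ → ℕ) (t : ℝ) : ℝ :=
  (if 0 ≤ t then Real.exp (-t) else 0) - ∑' k, echo T k t

/-- bottom of the region of level `n` -/
noncomputable def bot : ℕ → ℝ
  | 0 => -1
  | (k+1) => aa (k+1)

noncomputable def del (T : ℕ → ℕ) : ℕ → ℝ
  | 0 => 1/4
  | (k+1) => 1 / T k

/-- distance to the boundary of the strip that is needed at level `n` -/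
noncomputable def gap (T : ℕ → ℕ) : ℕ → ℝ
  | 0 => 1/2
  | (k+1) => 1 / (2 * T k)

noncomputable def stepC (n : ℕ) : ℝ := 3 * Real.log (2 * bb n) + 13

/-- admissible sequences of periods -/
structure Good (T : ℕ → ℕ) : Prop where
  pos : ∀ n, 1 ≤ T n
  dvd : ∀ n, T n ∣ T (n+1)
  big : ∀ n, 8 * T n ≤ T (n+1)
  bbT : ∀ n, bb n * 2 ^ (n+2) ≤ Real.exp ((T n : ℝ) / 4)
  betT : ∀ n, bet T n * Real.exp (T n) * 2 ^ (n+1) ≤ Real.exp ((T (n+1) : ℝ) / 4)
  step : ∀ n, ∀ K : ℂ → ℂ,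
    DifferentiableOn ℂ K {l | |l.re| < 1 ∧ bot n < l.im} →
    (∀ l : ℂ, |l.re| < 1 → bot n < l.im → ‖K l‖ ≤ 1) →
    (∀ y : ℝ, bot (n+1) + 2 ≤ y → ‖K (y * Complex.I)‖ ≤ stepC n / T n) →
    ∀ l : ℂ, |l.re| ≤ 1 - gap T n → bot n + 1 ≤ l.im → ‖K l‖ ≤ del T n

noncomputable def chi (T : ℕ → ℕ) (k : ℕ) (l : ℂ) : ℂ := bet T k * (1 - l) / (aa k - l)

noncomputable def zet (T : ℕ → ℕ) (n : ℕ) (l : ℂ) : ℂ :=
  (1 - ∑ i ∈ Finset.range n, chi T i l * Complex.exp (l * T i)) / chi T n l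

/-- kernel of the transform of level `n` -/
noncomputable def E1 (T : ℕ → ℕ) (n : ℕ) (l z : ℂ) (t : ℝ) : ℂ :=
  z ^ (mm T n t).toNat * Complex.exp (l * rr T n t)

/-- kernel of the two level transform -/
noncomputable def E2 (T : ℕ → ℕ) (n : ℕ) (l Z z : ℂ) (t : ℝ) : ℂ :=
  Z ^ (mm T (n+1) t).toNat *
    z ^ (mm T n t - ((T (n+1) / T n : ℕ) : ℤ) * mm T (n+1) t) * Complex.exp (l * rr T n t)

/-- transform of level `n` -/
noncomputable def KK (T : ℕ → ℕ) (n : ℕ) (h : ℝ → ℂ) (l : ℂ) : ℂ :=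
  ∫ t in Ioo (0:ℝ) ((T (n+1) : ℝ) / 2), h t * E1 T n l (zet T n l) t

end MP6c344
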