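import Pool.Agent.MP6c344.Chi
import Pool.Agent.MP6c344.HalfStrip

open MeasureTheory Set Filter Topology

namespace MP6c344

/-- requirements on the period `x` of level `n`, given the gap `g` and the target `δ` -/
def PPr (n : ℕ) (g δ : ℝ) (x : ℕ) : Prop :=
  bb n * 2 ^ (n+2) ≤ Real.exp ((x : ℝ) / 4) ∧ ∀ K : ℂ → ℂ,
    DifferentiableOn ℂ K {l | |l.re| < 1 ∧ bot n < l.im} →
    (∀ l : ℂ, |l.re| < 1 → bot n < l.im → ‖K l‖ ≤ 1) →
    (∀ y : ℝ, bot (n+1) + 2 ≤ y → ‖K (y * Complex.I)‖ ≤ stepC n / x) →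
    ∀ l : ℂ, |l.re| ≤ 1 - g → bot n + 1 ≤ l.im → ‖K l‖ ≤ δ

theorem exists_PPr (n : ℕ) (g δ : ℝ) (hg : 0 < g) (hg1 : g < 1) (hδ : 0 < δ) :
    ∃ N0 : ℕ, ∀ x ≥ N0, PPr n g δ x := by
  obtain ⟨η, hη, H⟩ := lemS' 1 (1-g) (bot n) (bot (n+1) + 2) δ (by linarith) (by linarith) hδ
  have h2 : Tendsto (fun x : ℕ => stepC n / (x:ℝ)) atTop (𝓝 0) :=
    tendsto_const_div_atTop_nhds_zero_nat (stepC n)
  have e2 := h2.eventually (ge_mem_nhds hη)
  have h1 : Tendsto (fun x : ℕ => Real.exp ((x:ℝ)/4)) atTop atTop :=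
    Real.tendsto_exp_atTop.comp (tendsto_natCast_atTop_atTop.atTop_div_const (by norm_num))
  have e1 := h1.eventually (eventually_ge_atTop (bb n * 2 ^ (n+2)))
  obtain ⟨N0, hN0⟩ := eventually_atTop.1 (e1.and e2)
  refine ⟨N0, fun x hx => ⟨(hN0 x hx).1, ?_⟩⟩
  intro K hK hb hs l hl1 hl2
  refine H K hK hb ?_ l hl1 hl2
  intro y hy
  exact (hs y hy).trans (hN0 x hx).2

/-- requirement linking consecutive periods -/
theorem exists_QQ (c : ℝ) : ∃ N0 : ℕ, ∀ x ≥ N0, c ≤ Real.exp ((x : ℝ) / 4) := by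
  have h1 : Tendsto (fun x : ℕ => Real.exp ((x:ℝ)/4)) atTop atTop :=
    Real.tendsto_exp_atTop.comp (tendsto_natCast_atTop_atTop.atTop_div_const (by norm_num))
  exact eventually_atTop.1 (h1.eventually (eventually_ge_atTop c))

open Classical in
noncomputable def N0 (n : ℕ) (g δ : ℝ) : ℕ :=
  if h : 0 < g ∧ g < 1 ∧ 0 < δ then (exists_PPr n g δ h.1 h.2.1 h.2.2).choose else 0

theorem N0_spec (n : ℕ) (g δ : ℝ) (hg : 0 < g) (hg1 : g < 1) (hδ : 0 < δ) (x : ℕ)
    (hx : N0 n g δ ≤ x) : PPr n g δ x := by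
  unfold N0 at hx
  rw [dif_pos ⟨hg, hg1, hδ⟩] at hx
  exact (exists_PPr n g δ hg hg1 hδ).choose_spec x hx

noncomputable def N1 (c : ℝ) : ℕ := (exists_QQ c).choose

theorem N1_spec (c : ℝ) (x : ℕ) (hx : N1 c ≤ x) : c ≤ Real.exp ((x : ℝ) / 4) :=
  (exists_QQ c).choose_spec x hx

noncomputable def TT : ℕ → ℕ
  | 0 => max 1 (N0 0 (1/2) (1/4))
  | (n+1) => TT n * max 8 (max (N0 (n+1) (1 / (2 * TT n)) (1 / TT n))
      (N1 (bb n * Real.exp ((n+1) * TT n) * Real.exp (TT n) * 2 ^ (n+1))))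

theorem TT_pos : ∀ n, 1 ≤ TT n := by
  intro n
  induction n with
  | zero => simp [TT]
  | succ n ih =>
    rw [TT]
    calc 1 = 1 * 1 := rfl
      _ ≤ _ := Nat.mul_le_mul ih (le_trans (by norm_num) (le_max_left _ _))

theorem TT_ge (n : ℕ) (a : ℕ) (h : a ≤ max 8 (max (N0 (n+1) (1 / (2 * TT n)) (1 / TT n))
      (N1 (bb n * Real.exp ((n+1) * TT n) * Real.exp (TT n) * 2 ^ (n+1))))) : a ≤ TT (n+1) := by
  rw [TT]
  exact h.trans (Nat.le_mul_of_pos_left _ (TT_pos n))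

theorem exists_good : ∃ T, Good T := by
  have hpos := TT_pos
  have hposR : ∀ n, (1:ℝ) ≤ TT n := fun n => by exact_mod_cast hpos n
  have key : ∀ n, PPr n (gap TT n) (del TT n) (TT n) := by
    intro n
    cases n with
    | zero =>
      refine N0_spec 0 _ _ (by simp [gap]) (by simp only [gap]; norm_num) (by simp [del]) _ ?_
      rw [TT]; simp only [gap, del]; exact le_max_right _ _
    | succ n =>
      have h1 := hposR n
      refine N0_spec (n+1) _ _ ?_ ?_ ?_ _ ?_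
      · simp only [gap]; positivity
      · simp only [gap]
        rw [div_lt_one (by positivity)]
        linarith
      · simp only [del]; positivity
      · simp only [gap, del]
        exact TT_ge n _ ((le_max_left _ _).trans (le_max_right _ _))
  refine ⟨TT, hpos, ?_, ?_, fun n => (key n).1, ?_, fun n => (key n).2⟩
  · intro n; rw [TT]; exact Dvd.intro _ rfl
  · intro n
    rw [TT, mul_comm (TT n)]
    exact Nat.mul_le_mul (le_max_left _ _) le_rfl
  · intro n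
    refine (le_of_eq ?_).trans
      (N1_spec (bb n * Real.exp ((n+1) * TT n) * Real.exp (TT n) * 2 ^ (n+1)) (TT (n+1))
      (TT_ge n _ ((le_max_right _ _).trans (le_max_right _ _))))
    rw [bet]

end MP6c344
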