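import Pool.Agent.MP6c344.Ideal

open MeasureTheory Set Filter Topology

namespace MP6c344

theorem ae_ne_zero : ∀ᵐ t : ℝ ∂volume, t ≠ 0 := by simp [ae_iff, measure_singleton]

theorem indicator_ae {E : Type*} [Zero E] {F : ℝ → E} (hF : ∀ t < 0, F t = 0) :
    (Ioi (0:ℝ)).indicator F =ᵐ[volume] F := by
  filter_upwards [ae_ne_zero] with t ht
  by_cases h : 0 < t
  · rw [indicator_of_mem (show t ∈ Ioi (0:ℝ) from h)]
  · rw [indicator_of_notMem (show t ∉ Ioi (0:ℝ) from h), hF t (lt_of_le_of_ne (not_lt.1 h) ht)]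

theorem half_int {F : ℝ → ℂ} (hF : ∀ t < 0, F t = 0)
    (h : Integrable F (volume.restrict (Ioi (0:ℝ)))) : Integrable F volume :=
  ((integrable_indicator_iff measurableSet_Ioi).2 h).congr (indicator_ae hF)

theorem half_integral {E : Type*} [NormedAddCommGroup E] [NormedSpace ℝ E] {F : ℝ → E}
    (hF : ∀ t < 0, F t = 0) : ∫ t, F t = ∫ t in Ioi (0:ℝ), F t := by
  rw [← integral_indicator measurableSet_Ioi]
  exact (integral_congr_ae (indicator_ae hF)).symm

theorem conv_neg {f k : ℝ → ℂ} (hf : ∀ t < 0, f t = 0) (hk : ∀ t < 0, k t = 0) (x : ℝ) (hx : x < 0) :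
    convolution f k (ContinuousLinearMap.mul ℂ ℂ) volume x = 0 := by
  unfold convolution
  rw [show (fun t => (ContinuousLinearMap.mul ℂ ℂ) (f t) (k (x - t))) = fun _ => 0 from ?_]
  · simp
  · funext t
    rcases lt_or_ge t 0 with h | h
    · simp [hf t h]
    · simp [hk (x - t) (by linarith)]

theorem conv_pos {f k : ℝ → ℂ} (hf : ∀ t < 0, f t = 0) (hk : ∀ t < 0, k t = 0) (x : ℝ) :
    convolution f k (ContinuousLinearMap.mul ℂ ℂ) volume x
      = ∫ s in Ioo (0:ℝ) x, k s * f (x - s) := by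
  rw [convolution_mul_swap, ← integral_indicator measurableSet_Ioo]
  have hne : ∀ᵐ t : ℝ ∂volume, t ≠ x := by simp [ae_iff, measure_singleton]
  apply integral_congr_ae
  filter_upwards [ae_ne_zero, hne] with t h0 hx
  by_cases h : t ∈ Ioo (0:ℝ) x
  · rw [indicator_of_mem h, mul_comm]
  · rw [indicator_of_notMem h]
    rcases lt_or_ge t 0 with h1 | h1
    · rw [hk t h1, mul_zero]
    · have h2 : 0 < t := lt_of_le_of_ne h1 (Ne.symm h0)
      have h3 : x < t := by
        by_contra hcon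
        exact h ⟨h2, lt_of_le_of_ne (not_lt.1 hcon) hx⟩
      rw [hf (x - t) (by linarith), zero_mul]

end MP6c344
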