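import Pool.Agent.MP6c344.Conv

open MeasureTheory Set Filter Topology

namespace MP6c344

/-- the annihilator of the left translates of `g` in the weighted `L¹` space -/
def Ann (ω : ℝ → ℝ) (g : ℝ → ℂ) : Set (ℝ → ℂ) :=
  {h | Integrable (fun t => (ω t : ℂ) * h t) (volume.restrict (Ioi (0:ℝ))) ∧
    ∀ τ : ℝ, 0 ≤ τ → ∫ t in Ioi (0:ℝ), h t * g (t + τ) = 0}

section
variable {ω : ℝ → ℝ} (hω : ContinuousOn ω (Ici 0)) (hpos : ∀ t, 0 ≤ t → 0 < ω t)
  (hsub : ∀ s t, 0 ≤ s → 0 ≤ t → ω (s + t) ≤ ω s * ω t)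
  {g : ℝ → ℂ} (hg : Measurable g) {C : ℝ} (hgC : ∀ t, 0 ≤ t → ‖g t‖ ≤ C * ω t)

include hω hpos in
theorem aesm {h : ℝ → ℂ} (hh : Integrable (fun t => (ω t : ℂ) * h t) (volume.restrict (Ioi (0:ℝ)))) :
    AEStronglyMeasurable h (volume.restrict (Ioi (0:ℝ))) := by
  have h1 : AEStronglyMeasurable ω (volume.restrict (Ioi (0:ℝ))) :=
    (hω.mono Ioi_subset_Ici_self).aestronglyMeasurable measurableSet_Ioi
  have h2 : AEStronglyMeasurable (fun t => ((ω t : ℝ) : ℂ)) (volume.restrict (Ioi (0:ℝ))) :=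
    Complex.continuous_ofReal.comp_aestronglyMeasurable h1
  have h3 : AEStronglyMeasurable (fun t => ((ω t : ℝ) : ℂ)⁻¹ * ((ω t : ℂ) * h t))
      (volume.restrict (Ioi (0:ℝ))) := (h2.aemeasurable.inv.aestronglyMeasurable).mul hh.aestronglyMeasurable
  refine h3.congr ?_
  rw [Filter.EventuallyEq, ae_restrict_iff' measurableSet_Ioi]
  filter_upwards with t ht
  have : ((ω t : ℝ) : ℂ) ≠ 0 := by exact_mod_cast (hpos t (le_of_lt ht)).ne'
  rw [← mul_assoc, inv_mul_cancel₀ this, one_mul]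

include hpos hgC in
theorem C_nonneg : 0 ≤ C := by
  have h1 := hgC 0 le_rfl
  have h2 := hpos 0 le_rfl
  by_contra hC
  push Not at hC
  have : C * ω 0 < 0 := mul_neg_of_neg_of_pos hC h2
  linarith [norm_nonneg (g 0)]

include hω hpos hsub hg hgC

theorem norm_hg_le (h : ℝ → ℂ) (τ : ℝ) (hτ : 0 ≤ τ) (t : ℝ) (ht : 0 < t) :
    ‖h t * g (t + τ)‖ ≤ C * ω τ * ‖(ω t : ℂ) * h t‖ := by
  have hC := C_nonneg hpos hgC
  have h1 := hgC (t + τ) (by linarith)
  have h2 := hsub t τ ht.le hτ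
  have hp := hpos t ht.le
  rw [norm_mul, norm_mul, Complex.norm_real, Real.norm_of_nonneg hp.le]
  calc ‖h t‖ * ‖g (t + τ)‖ ≤ ‖h t‖ * (C * (ω t * ω τ)) := by
        apply mul_le_mul_of_nonneg_left _ (norm_nonneg _)
        exact h1.trans (mul_le_mul_of_nonneg_left h2 hC)
    _ = _ := by ring

theorem int_hg {h : ℝ → ℂ} (hh : Integrable (fun t => (ω t : ℂ) * h t) (volume.restrict (Ioi (0:ℝ))))
    (τ : ℝ) (hτ : 0 ≤ τ) :
    Integrable (fun t => h t * g (t + τ)) (volume.restrict (Ioi (0:ℝ))) := by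
  refine Integrable.mono' (hh.norm.const_mul (C * ω τ)) ?_ ?_
  · exact (aesm hω hpos hh).mul
      (hg.comp (measurable_id.add_const τ)).aestronglyMeasurable
  · rw [ae_restrict_iff' measurableSet_Ioi]
    filter_upwards with t ht
    exact norm_hg_le hω hpos hsub hg hgC h τ hτ t ht

omit hω hpos hsub hg hgC in
theorem Ann_zero : (0 : ℝ → ℂ) ∈ Ann ω g := by
  refine ⟨?_, ?_⟩
  · simp
  · intro τ _; simp

theorem Ann_add {f h : ℝ → ℂ} (hf : f ∈ Ann ω g) (hh : h ∈ Ann ω g) : f + h ∈ Ann ω g := by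
  refine ⟨?_, ?_⟩
  · have := hf.1.add hh.1
    refine this.congr (ae_of_all _ fun t => ?_)
    simp only [Pi.add_apply]
    ring
  · intro τ hτ
    have : ∀ t, (f + h) t * g (t + τ) = f t * g (t + τ) + h t * g (t + τ) := by
      intro t; simp only [Pi.add_apply]; ring
    simp_rw [this]
    rw [integral_add (int_hg hω hpos hsub hg hgC hf.1 τ hτ) (int_hg hω hpos hsub hg hgC hh.1 τ hτ),
      hf.2 τ hτ, hh.2 τ hτ, add_zero]

omit hω hpos hsub hg hgC in
theorem Ann_smul (c : ℂ) {f : ℝ → ℂ} (hf : f ∈ Ann ω g) : c • f ∈ Ann ω g := by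
  refine ⟨?_, ?_⟩
  · refine (hf.1.const_mul c).congr (ae_of_all _ fun t => ?_)
    simp only [Pi.smul_apply, smul_eq_mul]
    ring
  · intro τ hτ
    have : ∀ t, (c • f) t * g (t + τ) = c * (f t * g (t + τ)) := by
      intro t; simp only [Pi.smul_apply, smul_eq_mul]; ring
    simp_rw [this]
    rw [integral_const_mul, hf.2 τ hτ, mul_zero]

omit hω hpos hsub hg hgC in
theorem Ann_congr {f h : ℝ → ℂ} (hf : f ∈ Ann ω g) (e : h =ᵐ[volume.restrict (Ioi (0:ℝ))] f) :
    h ∈ Ann ω g := by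
  refine ⟨?_, ?_⟩
  · refine hf.1.congr ?_
    filter_upwards [e] with t ht
    rw [ht]
  · intro τ hτ
    rw [← hf.2 τ hτ]
    apply integral_congr_ae
    filter_upwards [e] with t ht
    rw [ht]

theorem Ann_conv {f k : ℝ → ℂ} (hf : f ∈ Ann ω g)
    (hk : Integrable (fun t => (ω t : ℂ) * k t) (volume.restrict (Ioi (0:ℝ)))) :
    (fun t : ℝ => ∫ s in Ioo (0:ℝ) t, k s * f (t - s)) ∈ Ann ω g :=
  conv_mem ω hω hpos hsub g hg C hgC f k hf.1 hk hf.2

theorem Ann_closed {f : ℝ → ℂ}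
    (hf : Integrable (fun t => (ω t : ℂ) * f t) (volume.restrict (Ioi (0:ℝ))))
    (happ : ∀ ε : ℝ, 0 < ε → ∃ h ∈ Ann ω g, ∫ t in Ioi (0:ℝ), ‖(ω t : ℂ) * (f t - h t)‖ < ε) :
    f ∈ Ann ω g := by
  refine ⟨hf, fun τ hτ => ?_⟩
  have hC := C_nonneg hpos hgC
  have hCω : 0 ≤ C * ω τ := mul_nonneg hC (hpos τ hτ).le
  by_contra hne
  have hn : 0 < ‖∫ t in Ioi (0:ℝ), f t * g (t + τ)‖ := norm_pos_iff.2 hne
  obtain ⟨h, hh, hlt⟩ := happ (‖∫ t in Ioi (0:ℝ), f t * g (t + τ)‖ / (C * ω τ + 1)) (by positivity)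
  have hd : Integrable (fun t => (ω t : ℂ) * (f t - h t)) (volume.restrict (Ioi (0:ℝ))) := by
    refine (hf.sub hh.1).congr (ae_of_all _ fun t => ?_)
    simp only [Pi.sub_apply]
    ring
  have e1 : ∫ t in Ioi (0:ℝ), f t * g (t + τ) = ∫ t in Ioi (0:ℝ), (f t - h t) * g (t + τ) := by
    have : ∀ t, (f t - h t) * g (t + τ) = f t * g (t + τ) - h t * g (t + τ) := by
      intro t; ring
    simp_rw [this]
    rw [integral_sub (int_hg hω hpos hsub hg hgC hf τ hτ) (int_hg hω hpos hsub hg hgC hh.1 τ hτ),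
      hh.2 τ hτ, sub_zero]
  have e2 : ‖∫ t in Ioi (0:ℝ), (f t - h t) * g (t + τ)‖
      ≤ C * ω τ * ∫ t in Ioi (0:ℝ), ‖(ω t : ℂ) * (f t - h t)‖ := by
    rw [← integral_const_mul]
    refine norm_integral_le_of_norm_le (hd.norm.const_mul _) ?_
    rw [ae_restrict_iff' measurableSet_Ioi]
    filter_upwards with t ht
    exact norm_hg_le hω hpos hsub hg hgC (fun t => f t - h t) τ hτ t ht
  rw [← e1] at e2
  rw [lt_div_iff₀ (by positivity)] at hlt
  have h3 : 0 ≤ ∫ t in Ioi (0:ℝ), ‖(ω t : ℂ) * (f t - h t)‖ := integral_nonneg fun t => norm_nonneg _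
  nlinarith

end

/-- translates of `f` lie in the annihilator -/
theorem Ann_translate {ω : ℝ → ℝ} (hω : ContinuousOn ω (Ici 0)) (hpos : ∀ t, 0 ≤ t → 0 < ω t)
    (hsub : ∀ s t, 0 ≤ s → 0 ≤ t → ω (s + t) ≤ ω s * ω t)
    {g : ℝ → ℂ} {f : ℝ → ℂ} (hfm : Measurable f) (hf0 : ∀ t < 0, f t = 0)
    (hf : IntegrableOn (fun t => ‖f t‖ * ω t) (Ioi 0))
    (hfg : ∀ τ > 0, ∫ t in Ioi (0:ℝ), f t * g (t + τ) = 0) (s : ℝ) (hs : 0 < s) :
    (fun t => f (t - s)) ∈ Ann ω g := by
  have hωm : AEStronglyMeasurable ω (volume.restrict (Ioi (0:ℝ))) :=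
    (hω.mono Ioi_subset_Ici_self).aestronglyMeasurable measurableSet_Ioi
  refine ⟨?_, ?_⟩
  · -- integrability
    have h1 : Integrable (fun t => (Ioi (0:ℝ)).indicator (fun t => ‖f t‖ * ω t) t) :=
      (integrable_indicator_iff measurableSet_Ioi).2 hf
    have h2 := (h1.comp_sub_right s).const_mul (ω s)
    refine Integrable.mono' (h2.restrict (s := Ioi (0:ℝ))) ?_ ?_
    · exact (Complex.continuous_ofReal.comp_aestronglyMeasurable hωm).mul
        (hfm.comp (measurable_id.sub_const s)).aestronglyMeasurable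
    · have hne : ∀ᵐ t ∂(volume.restrict (Ioi (0:ℝ))), t ≠ s :=
        ae_restrict_of_ae (by simp [ae_iff, measure_singleton])
      filter_upwards [hne, ae_restrict_mem measurableSet_Ioi] with t hts ht
      have hp := hpos t (le_of_lt ht)
      rw [norm_mul, Complex.norm_real, Real.norm_of_nonneg hp.le]
      rcases lt_or_gt_of_ne hts with h | h
      · rw [hf0 (t - s) (by linarith), norm_zero, mul_zero,
          indicator_of_notMem (show t - s ∉ Ioi (0:ℝ) from fun h' => by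
            have : 0 < t - s := h'
            linarith), mul_zero]
      · rw [indicator_of_mem (show t - s ∈ Ioi (0:ℝ) from sub_pos.2 h)]
        have h3 := hsub s (t - s) hs.le (by linarith)
        rw [add_sub_cancel] at h3
        calc ω t * ‖f (t - s)‖ ≤ ω s * ω (t - s) * ‖f (t - s)‖ :=
              mul_le_mul_of_nonneg_right h3 (norm_nonneg _)
          _ = _ := by ring
  · intro τ hτ
    rw [← hfg (s + τ) (by linarith)]
    have h1 : ∫ t in Ioi (0:ℝ), f (t - s) * g (t + τ) = ∫ t in Ici s, f (t - s) * g (t + τ) := by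
      apply setIntegral_eq_of_subset_of_forall_sdiff_eq_zero measurableSet_Ioi
        (fun t ht => lt_of_lt_of_le hs ht)
      intro t ht
      have : t < s := by
        by_contra hcon
        exact ht.2 (not_lt.1 hcon)
      rw [hf0 (t - s) (by linarith), zero_mul]
    rw [h1, integral_Ici_eq_integral_Ioi, ← integral_indicator measurableSet_Ioi,
      ← integral_indicator measurableSet_Ioi,
      ← integral_sub_right_eq_self (fun t => (Ioi (0:ℝ)).indicator (fun t => f t * g (t + (s + τ))) t) s]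
    congr 1
    ext t
    by_cases ht : s < t
    · rw [indicator_of_mem (show t - s ∈ Ioi (0:ℝ) from sub_pos.2 ht),
        indicator_of_mem (show t ∈ Ioi s from ht)]
      congr 2
      ring
    · rw [indicator_of_notMem (show t - s ∉ Ioi (0:ℝ) from fun h => ht (sub_pos.1 h)),
        indicator_of_notMem (show t ∉ Ioi s from ht)]

end MP6c344
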