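import Mathlib

open MeasureTheory Set Filter Topology
open scoped FourierTransform SchwartzMap ContDiff

namespace MP6c344

theorem fourier_zero_ae (F : ℝ → ℂ) (hF : Integrable F)
    (h : ∀ w : ℝ, 𝓕 F w = 0) : ∀ᵐ x, F x = 0 := by
  apply ae_eq_zero_of_integral_contDiff_smul_eq_zero hF.locallyIntegrable
  intro g g_smooth g_cpt
  have hg₁ : HasCompactSupport (Complex.ofRealCLM ∘ g) := g_cpt.comp_left rfl
  have hg₂ : ContDiff ℝ ∞ (Complex.ofRealCLM ∘ g) := by fun_prop
  set G : 𝓢(ℝ, ℂ) := hg₁.toSchwartzMap hg₂ with hG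
  have hGg : ∀ x, G x = (g x : ℂ) := fun x => rfl
  set P : 𝓢(ℝ, ℂ) := 𝓕⁻ G with hP
  have hPi : Integrable (P : ℝ → ℂ) (volume : Measure ℝ) := P.integrable
  have key : ∫ x : ℝ, 𝓕 (P : ℝ → ℂ) x • F x = ∫ x : ℝ, P x • 𝓕 F x := by
    simpa using! (VectorFourier.integral_fourierIntegral_smul_eq_flip (L := innerₗ ℝ)
      Real.continuous_fourierChar continuous_inner hPi hF)
  have e1 : ∀ x : ℝ, 𝓕 (P : ℝ → ℂ) x = (g x : ℂ) := by
    intro x
    have : (𝓕 P : 𝓢(ℝ, ℂ)) = G := by rw [hP, FourierTransform.fourier_fourierInv_eq]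
    rw [← hGg, ← this]
    rfl
  have e2 : ∫ x : ℝ, P x • 𝓕 F x = 0 := by
    simp [h]
  rw [← key] at e2
  rw [← e2]
  congr 1
  ext x
  rw [e1, Complex.coe_smul]

/-- injectivity of the Laplace transform on `L¹(0,∞)` -/
theorem laplace_inj (f : ℝ → ℂ) (hf : Integrable f (volume.restrict (Ioi (0:ℝ))))
    (h : ∀ z : ℂ, 0 ≤ z.re → ∫ t in Ioi (0:ℝ), f t * Complex.exp (-(z * (t : ℂ))) = 0) :
    f =ᵐ[volume.restrict (Ioi (0:ℝ))] 0 := by
  have hF : Integrable ((Ioi (0:ℝ)).indicator f) := by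
    rw [integrable_indicator_iff measurableSet_Ioi]; exact hf
  have h0 := fourier_zero_ae ((Ioi (0:ℝ)).indicator f) hF ?_
  · rw [EventuallyEq, ae_restrict_iff' measurableSet_Ioi]
    filter_upwards [h0] with x hx hxs
    rw [indicator_of_mem hxs] at hx
    exact hx
  · intro w
    rw [Real.fourier_real_eq_integral_exp_smul]
    have e := h (2 * Real.pi * w * Complex.I) (by simp)
    rw [← integral_indicator measurableSet_Ioi] at e
    rw [← e]
    congr 1
    ext t
    by_cases ht : t ∈ Ioi (0:ℝ)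
    · rw [indicator_of_mem ht, indicator_of_mem ht, smul_eq_mul, mul_comm]
      congr 2
      push_cast
      ring
    · rw [indicator_of_notMem ht, indicator_of_notMem ht, smul_zero]

end MP6c344
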