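import Pool.Agent.MP6c344.Step
import Pool.Agent.MP6c344.Exists
import Pool.Agent.MP27fa52.MainStep

open MeasureTheory Set Filter Topology

namespace MP6c344

theorem main_step {T : ℕ → ℕ} (G : Good T) {h : ℝ → ℂ} {M : ℝ} (hM : 0 < M) (H : Adm T h M)
    (n : ℕ)
    (hyp : ∀ l : ℂ, |l.re + (n+2)| ≤ 1 - gap T (n+1) → bot (n+1) + 1 ≤ l.im →
      ‖KK T (n+1) h l‖ ≤ del T (n+1) * M) :
    ∀ l : ℂ, |l.re + (n+1)| ≤ 1 - gap T n → bot n + 1 ≤ l.im → ‖KK T n h l‖ ≤ del T n * M := by
  have hpos := G.pos
  have hdvd := G.dvd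
  have hbig := G.big
  have hTn : (0:ℝ) < T n := by exact_mod_cast hpos n
  have hn0 : (0:ℝ) ≤ n := Nat.cast_nonneg n
  have hbb4 := bb_ge n
  have hbbT := G.bbT n
  have hpi4 := Real.pi_lt_d2
  have hpi0 := Real.pi_pos
  -- size of the period
  set L : ℝ := Real.log (2 * bb n) with hL
  have hL8 : 2 ≤ L := by
    rw [hL, Real.le_log_iff_exp_le (by positivity)]
    have h1 : Real.exp 2 ≤ 8 := by
      have h2 := Real.exp_one_lt_d9
      have h3 : Real.exp 2 = Real.exp 1 * Real.exp 1 := by rw [← Real.exp_add]; norm_num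
      rw [h3]
      have h4 := Real.exp_pos 1
      nlinarith
    linarith
  have hlog2 : 0.69 < Real.log 2 := by
    have := Real.log_two_gt_d9
    linarith
  have hLT : 4 * L + 4 * 0.69 ≤ T n := by
    have h1 : 2 * bb n * 2 ≤ Real.exp ((T n : ℝ) / 4) := by
      refine le_trans ?_ hbbT
      have h2 : (4:ℝ) ≤ 2 ^ (n+2) := by
        rw [pow_add]
        have : (1:ℝ) ≤ 2 ^ n := one_le_pow₀ (by norm_num)
        linarith
      nlinarith
    have h3 : Real.log (2 * bb n * 2) ≤ (T n : ℝ) / 4 := by
      rw [Real.log_le_iff_le_exp (by positivity)]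
      exact h1
    rw [Real.log_mul (by positivity) (by norm_num)] at h3
    linarith
  have hT10 : 10 ≤ (T n : ℝ) := by linarith
  have hshift : ∀ l : ℂ, (l - ((n:ℂ)+1)).re + (n+1) = l.re := by
    intro l; simp
  have hshift2 : ∀ l : ℂ, (l - ((n:ℂ)+1)).im = l.im := by
    intro l; simp
  have main := G.step n (fun l => KK T n h (l - ((n:ℂ)+1)) / M) ?_ ?_ ?_
  · intro l h1 h2
    have e1 : (l + ((n:ℂ)+1)).re = l.re + (n+1) := by simp
    have e2 : (l + ((n:ℂ)+1)).im = l.im := by simp
    have := main (l + ((n:ℂ)+1)) (by rw [e1]; exact h1) (by rw [e2]; exact h2)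
    simp only [add_sub_cancel_right] at this
    rw [norm_div, Complex.norm_real, Real.norm_of_nonneg hM.le, div_le_iff₀ hM] at this
    exact this
  · apply DifferentiableOn.div_const
    apply (KK_diff T hpos hdvd hbig H n).comp (by fun_prop)
    intro l hl
    refine ⟨?_, ?_⟩
    · rw [hshift]; exact hl.1
    · rw [hshift2]; exact hl.2
  · intro l h1 h2
    rw [norm_div, Complex.norm_real, Real.norm_of_nonneg hM.le, div_le_one hM]
    exact KK_bound T hpos hdvd hbig H n _ (by rw [hshift]; exact h1.le) (by rw [hshift2]; exact h2)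
  · intro y hy
    have hby : bot n < y := by
      have := bot_mono n
      linarith
    set c : ℂ := y * Complex.I - ((n:ℂ)+1) with hc
    have hcre : c.re = -((n:ℝ)+1) := by simp [hc]
    have hcim : c.im = y := by simp [hc]
    have hcs : |c.re + (n+1)| ≤ 1 := by rw [hcre]; simp
    set z := zet T n c with hz
    have hzl := zet_axis_ge T G.bbT n c hcre (by rw [hcim]; exact hby)
    have hzu := zet_le T n c hcs (by rw [hcim]; exact hby)
    rw [← hz] at hzl hzu
    set A : ℝ := Real.exp (-(((n:ℝ)+1) * T n)) with hA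
    have hA0 : 0 < A := Real.exp_pos _
    have hz0' : 0 < ‖z‖ := lt_of_lt_of_le (by positivity) hzl
    have hz0 : z ≠ 0 := norm_pos_iff.1 hz0'
    have hzu2 : ‖z‖ ≤ A := by linarith
    have hzl2 : Real.exp (-(((n:ℝ)+2) * T n)) ≤ ‖z‖ := by
      refine le_trans ?_ hzl
      rw [le_div_iff₀ (by positivity)]
      have h1 : 2 * bb n ≤ Real.exp (T n) := by
        rw [← Real.log_le_iff_le_exp (by positivity)]
        linarith
      calc _ ≤ Real.exp (-(((n:ℝ)+2) * T n)) * Real.exp (T n) :=
            mul_le_mul_of_nonneg_left h1 (Real.exp_pos _).le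
        _ = A := by rw [← Real.exp_add, hA]; congr 1; ring
    obtain ⟨l, hl1, hl2, hl3⟩ := MP27fa52.exists_log (T n) hTn z hz0 y
    -- the real part of `l`
    have hx1 : Real.log ‖z‖ ≤ -(((n:ℝ)+1) * T n) - 0.69 := by
      have h1 : Real.log ‖z‖ ≤ Real.log (A / 2) := Real.log_le_log hz0' hzu
      rw [Real.log_div hA0.ne' (by norm_num), hA, Real.log_exp] at h1
      linarith
    have hx2 : -(((n:ℝ)+1) * T n) - L ≤ Real.log ‖z‖ := by
      have h1 : Real.log (A / (2 * bb n)) ≤ Real.log ‖z‖ :=
        Real.log_le_log (by positivity) hzl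
      rw [Real.log_div hA0.ne' (by positivity), hA, Real.log_exp] at h1
      linarith
    set x : ℝ := -(((n:ℝ)+1) * T n) - Real.log ‖z‖ with hx
    have hxl : 0.69 ≤ x := by linarith
    have hxu : x ≤ L := by linarith
    have hlre : l.re = -((n:ℝ)+1) - x / T n := by
      rw [hl2, hx]
      field_simp
      ring
    have hxT1 : x / T n ≤ 1/4 := by
      rw [div_le_iff₀ hTn]; linarith
    have hxT0 : 0 ≤ x / T n := by positivity
    have hstrip : |l.re + (n+2)| ≤ 1 - gap T (n+1) := by
      have e : l.re + (n+2) = 1 - x / T n := by rw [hlre]; ring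
      rw [e, abs_of_nonneg (by linarith)]
      simp only [gap]
      have h1 : 1 / (2 * (T n : ℝ)) ≤ x / T n := by
        rw [div_le_div_iff₀ (by positivity) hTn]
        nlinarith
      linarith
    have hpiT : Real.pi / T n ≤ 1/3 := by
      rw [div_le_iff₀ hTn]; linarith
    have hlim : bot (n+1) + 1 ≤ l.im := by
      have := (abs_le.1 hl3).1
      linarith
    -- distance
    have hdist : dist l c ≤ (L + Real.pi) / T n := by
      rw [dist_eq_norm]
      refine (Complex.norm_le_abs_re_add_abs_im _).trans ?_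
      rw [Complex.sub_re, Complex.sub_im, hcre, hcim, hlre]
      have e : -((n:ℝ)+1) - x / T n - -((n:ℝ)+1) = -(x / T n) := by ring
      rw [e, abs_neg, abs_of_nonneg hxT0, add_div]
      have : x / T n ≤ L / T n := div_le_div_of_nonneg_right hxu hTn.le
      linarith
    have hdist2 : dist l c < 1 := by
      refine hdist.trans_lt ?_
      rw [div_lt_iff₀ hTn]
      linarith
    have hball : Metric.ball c 1 ⊆ {l : ℂ | |l.re + (n+1)| < 1 ∧ bot (n+1) < l.im} := by
      intro w hw
      rw [Metric.mem_ball, dist_eq_norm] at hw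
      have h1 := Complex.abs_re_le_norm (w - c)
      have h2 := Complex.abs_im_le_norm (w - c)
      rw [Complex.sub_re, hcre, sub_neg_eq_add] at h1
      rw [Complex.sub_im, hcim] at h2
      have h3 := (abs_le.1 (h2.trans hw.le)).1
      exact ⟨h1.trans_lt hw, by linarith⟩
    set J : ℂ → ℂ := fun l => JJ T n h l z / M with hJ
    have hJd : DifferentiableOn ℂ J (Metric.ball c 1) :=
      ((JJ_diff T hpos hdvd hbig H n z hzl2 hzu2).mono hball).div_const _
    have hJb : ∀ w ∈ Metric.ball c 1, ‖J w‖ ≤ 1 := by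
      intro w hw
      have hw' := hball hw
      rw [hJ]
      simp only
      rw [norm_div, Complex.norm_real, Real.norm_of_nonneg hM.le, div_le_one hM]
      exact JJ_bound T hpos hdvd hbig H n w z hw'.1.le hw'.2 hzl2 hzu2
    have hcball : c ∈ Metric.ball c 1 := Metric.mem_ball_self (by norm_num)
    have hmaps : MapsTo J (Metric.ball c 1) (Metric.closedBall (J c) 3) := by
      intro w hw
      rw [Metric.mem_closedBall, dist_eq_norm]
      have h1 := hJb w hw
      have h2 := hJb c hcball
      have h3 := norm_sub_le (J w) (J c)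
      linarith
    have hlip := Complex.dist_le_div_mul_dist_of_mapsTo_ball hJd hmaps hdist2
    have hJl : ‖J l‖ ≤ 1 / T n := by
      rw [hJ]
      simp only
      have h1 : JJ T n h l z = KK T (n+1) h l := by
        rw [← hl1]; exact JJ_curve T hpos hdvd hbig n h l
      rw [h1, norm_div, Complex.norm_real, Real.norm_of_nonneg hM.le, div_le_iff₀ hM]
      have := hyp l hstrip hlim
      simpa [del] using this
    have hchi : chi T n c ≠ 0 := chi_ne T n c (by rw [hcre]; linarith) (by rw [hcim]; exact hby)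
    have hJc : J c = KK T n h c / M := by
      rw [hJ]
      simp only
      congr 1
      exact JJ_zero T hpos hdvd hbig n h c hchi
    change ‖KK T n h c / M‖ ≤ _
    rw [← hJc]
    have h1 : ‖J c‖ ≤ ‖J l‖ + dist (J l) (J c) := by
      rw [dist_eq_norm]
      have := norm_sub_le (J l) (J l - J c)
      rw [sub_sub_cancel] at this
      exact this
    calc ‖J c‖ ≤ 1 / T n + 3 * ((L + Real.pi) / T n) := by
          rw [div_one] at hlip
          linarith
      _ = (1 + 3 * (L + Real.pi)) / T n := by
        field_simp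
      _ ≤ stepC n / T n := by
        unfold stepC
        apply div_le_div_of_nonneg_right _ hTn.le
        rw [← hL]
        linarith

end MP6c344
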