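import Pool.Agent.MP6c344.Defs

open MeasureTheory Set Filter Topology

namespace MP6c344



theorem wf_T_pos {T : ℕ → ℕ} (hpos : ∀ n, 1 ≤ T n) (n : ℕ) : (0:ℝ) < T n := by
  exact_mod_cast hpos n

theorem wf_rr_dist {T : ℕ → ℕ} (hpos : ∀ n, 1 ≤ T n) (k : ℕ) (t : ℝ) (z : ℤ) :
    |rr T k t| ≤ |t - z * T k| := by
  have hT := wf_T_pos hpos k
  have h := round_le (t / (T k : ℝ)) z
  have e : ∀ y : ℝ, |t - y * T k| = |t / (T k : ℝ) - y| * T k := by
    intro y
    rw [← abs_of_pos hT, ← abs_mul, abs_of_pos hT]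
    congr 1
    field_simp
  unfold rr mm
  rw [e, e]
  exact mul_le_mul_of_nonneg_right h hT.le

theorem wf_rr_abs {T : ℕ → ℕ} (hpos : ∀ n, 1 ≤ T n) (k : ℕ) (t : ℝ) : |rr T k t| ≤ |t| := by
  have h := wf_rr_dist hpos k t 0
  simpa using h

theorem wf_rr_half {T : ℕ → ℕ} (hpos : ∀ n, 1 ≤ T n) (k : ℕ) (t : ℝ) :
    |rr T k t| ≤ T k / 2 := by
  have hT := wf_T_pos hpos k
  have h := abs_sub_round (t / (T k : ℝ))
  have e : ∀ y : ℝ, |t - y * T k| = |t / (T k : ℝ) - y| * T k := by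
    intro y
    rw [← abs_of_pos hT, ← abs_mul, abs_of_pos hT]
    congr 1
    field_simp
  unfold rr mm
  rw [e]
  calc |t / (T k : ℝ) - round (t / (T k : ℝ))| * T k ≤ 1 / 2 * T k :=
        mul_le_mul_of_nonneg_right h hT.le
    _ = T k / 2 := by ring

theorem wf_rr_add {T : ℕ → ℕ} (hpos : ∀ n, 1 ≤ T n) (k : ℕ) (s t : ℝ) :
    |rr T k (s + t)| ≤ |rr T k s| + |rr T k t| := by
  have h := wf_rr_dist hpos k (s + t) (mm T k s + mm T k t)
  refine le_trans h ?_
  have e : s + t - ((mm T k s + mm T k t : ℤ) : ℝ) * T k = rr T k s + rr T k t := by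
    unfold rr
    push_cast
    ring
  rw [e]
  exact abs_add_le _ _

theorem wf_dvd {T : ℕ → ℕ} (hdvd : ∀ n, T n ∣ T (n+1)) {k j : ℕ} (h : k ≤ j) : T k ∣ T j := by
  induction j, h using Nat.le_induction with
  | base => exact dvd_rfl
  | succ j _ ih => exact ih.trans (hdvd j)

theorem wf_rr_T {T : ℕ → ℕ} (hpos : ∀ n, 1 ≤ T n) (hdvd : ∀ n, T n ∣ T (n+1)) {k j : ℕ}
    (h : k ≤ j) : |rr T k (T j)| = 0 := by
  obtain ⟨c, hc⟩ := wf_dvd hdvd h
  have h1 := wf_rr_dist hpos k (T j) c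
  have e : ((T j : ℕ) : ℝ) - ((c : ℤ) : ℝ) * T k = 0 := by
    rw [hc]
    push_cast
    ring
  rw [e, abs_zero] at h1
  exact le_antisymm h1 (abs_nonneg _)

theorem wf_T_mono {T : ℕ → ℕ} (hbig : ∀ n, 8 * T n ≤ T (n+1)) : Monotone T :=
  monotone_nat_of_le_succ fun n => by have := hbig n; omega

theorem wf_T_pow {T : ℕ → ℕ} (hpos : ∀ n, 1 ≤ T n) (hbig : ∀ n, 8 * T n ≤ T (n+1)) (n : ℕ) :
    n + 1 ≤ T n := by
  induction n with
  | zero => exact hpos 0
  | succ n ih => have := hbig n; omega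

theorem wf_rr_small {T : ℕ → ℕ} (hpos : ∀ n, 1 ≤ T n) (n : ℕ) (t : ℝ)
    (ht : |t| < (T n : ℝ) / 2) : rr T n t = t := by
  have hT := wf_T_pos hpos n
  have h0 := abs_lt.1 ht
  have h1 : round (t / (T n : ℝ)) = 0 := by
    rw [round_eq_zero_iff]
    constructor
    · rw [le_div_iff₀ hT]; linarith
    · rw [div_lt_iff₀ hT]; linarith
  unfold rr mm
  rw [h1]
  simp

theorem wf_theta_eq {T : ℕ → ℕ} (hpos : ∀ n, 1 ≤ T n) (hbig : ∀ n, 8 * T n ≤ T (n+1)) (N : ℕ)
    (t : ℝ) (ht : |t| < (T N : ℝ) / 2) :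
    theta T t = ∑ k ∈ Finset.range N, (|t| - |rr T k t|) := by
  unfold theta
  apply tsum_eq_sum
  intro k hk
  have hNk : N ≤ k := by simpa using hk
  have h1 : (T N : ℝ) ≤ T k := by exact_mod_cast wf_T_mono hbig hNk
  rw [wf_rr_small hpos k t (by linarith), sub_self]

theorem wf_summable {T : ℕ → ℕ} (hpos : ∀ n, 1 ≤ T n) (hbig : ∀ n, 8 * T n ≤ T (n+1)) (t : ℝ) :
    Summable (fun k => |t| - |rr T k t|) := by
  obtain ⟨N, hN⟩ := exists_nat_gt (2 * |t|)
  apply summable_of_ne_finset_zero (s := Finset.range N)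
  intro k hk
  have hNk : N ≤ k := by simpa using hk
  have h1 : ((k : ℕ) : ℝ) + 1 ≤ T k := by exact_mod_cast wf_T_pow hpos hbig k
  have h2 : (N : ℝ) ≤ k := by exact_mod_cast hNk
  rw [wf_rr_small hpos k t (by linarith), sub_self]

theorem wf_term_nonneg {T : ℕ → ℕ} (hpos : ∀ n, 1 ≤ T n) (k : ℕ) (t : ℝ) :
    0 ≤ |t| - |rr T k t| := by
  have := wf_rr_abs hpos k t
  linarith

theorem wf_theta_nonneg {T : ℕ → ℕ} (hpos : ∀ n, 1 ≤ T n) (t : ℝ) : 0 ≤ theta T t :=
  tsum_nonneg (fun k => wf_term_nonneg hpos k t)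

theorem wf_theta_super {T : ℕ → ℕ} (hpos : ∀ n, 1 ≤ T n) (hbig : ∀ n, 8 * T n ≤ T (n+1))
    (s t : ℝ) (hs0 : 0 ≤ s) (ht0 : 0 ≤ t) :
    theta T s + theta T t ≤ theta T (s + t) := by
  have hs := wf_summable hpos hbig s
  have ht := wf_summable hpos hbig t
  have hst := wf_summable hpos hbig (s + t)
  unfold theta
  rw [← hs.tsum_add ht]
  apply Summable.tsum_le_tsum _ (hs.add ht) hst
  intro k
  have := wf_rr_add hpos k s t
  rw [abs_of_nonneg hs0, abs_of_nonneg ht0, abs_of_nonneg (add_nonneg hs0 ht0)]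
  linarith

theorem wf_rr_cont {T : ℕ → ℕ} (hpos : ∀ n, 1 ≤ T n) (k : ℕ) :
    Continuous (fun t => |rr T k t|) := by
  have : LipschitzWith 1 (fun t => |rr T k t|) := by
    apply LipschitzWith.of_le_add
    intro x y
    have h1 := wf_rr_add hpos k (x - y) y
    have h2 := wf_rr_abs hpos k (x - y)
    rw [sub_add_cancel] at h1
    rw [Real.dist_eq]
    linarith
  exact this.continuous

theorem wf_theta_cont {T : ℕ → ℕ} (hpos : ∀ n, 1 ≤ T n) (hbig : ∀ n, 8 * T n ≤ T (n+1)) :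
    Continuous (theta T) := by
  rw [continuous_iff_continuousAt]
  intro t
  obtain ⟨N, hN⟩ := exists_nat_gt (2 * |t|)
  have h1 : ((N : ℕ) : ℝ) + 1 ≤ T N := by exact_mod_cast wf_T_pow hpos hbig N
  have h2 : ∀ᶠ s in 𝓝 t, |s| < (T N : ℝ) / 2 := by
    have : Continuous (fun s : ℝ => |s|) := continuous_abs
    exact this.continuousAt.eventually_lt continuousAt_const (by linarith)
  have h3 : (fun s => ∑ k ∈ Finset.range N, (|s| - |rr T k s|)) =ᶠ[𝓝 t] theta T := by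
    filter_upwards [h2] with s hs
    exact (wf_theta_eq hpos hbig N s hs).symm
  have h4 : Continuous (fun s => ∑ k ∈ Finset.range N, (|s| - |rr T k s|)) :=
    continuous_finset_sum _ fun k _ => continuous_abs.sub (wf_rr_cont hpos k)
  exact h4.continuousAt.congr h3

/-- basic facts on the weight -/
theorem weight_facts (T : ℕ → ℕ) (hpos : ∀ n, 1 ≤ T n) (hdvd : ∀ n, T n ∣ T (n+1))
    (hbig : ∀ n, 8 * T n ≤ T (n+1)) :
    Continuous (ww T) ∧ ww T 0 = 1 ∧ (∀ t, ww T t ≤ 1) ∧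
    (∀ s t, 0 ≤ s → 0 ≤ t → ww T (s+t) ≤ ww T s * ww T t) ∧ AntitoneOn (ww T) (Ici 0) ∧
    Tendsto (fun t => Real.log (ww T t) / t) atTop atBot ∧
    (∀ k : ℕ, ww T (T k) = Real.exp (-(((k:ℝ)+1) * T k))) := by
  have hsup := wf_theta_super hpos hbig
  refine ⟨Real.continuous_exp.comp (wf_theta_cont hpos hbig).neg, ?_, ?_, ?_, ?_, ?_, ?_⟩
  · have h0 : theta T 0 = 0 := by
      rw [wf_theta_eq hpos hbig 0 0 (by have := wf_T_pos hpos 0; rw [abs_zero]; positivity)]
      simp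
    unfold ww
    rw [h0]; simp
  · intro t
    unfold ww
    rw [Real.exp_le_one_iff]
    have := wf_theta_nonneg hpos t
    linarith
  · intro s t hs ht
    unfold ww
    rw [← Real.exp_add]
    apply Real.exp_le_exp.2
    have := hsup s t hs ht
    linarith
  · intro s hs t ht hst
    unfold ww
    apply Real.exp_le_exp.2
    have h1 := hsup s (t - s) hs (by linarith)
    have h2 := wf_theta_nonneg hpos (t - s)
    have e : s + (t - s) = t := by ring
    rw [e] at h1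
    linarith
  · rw [tendsto_atBot]
    intro b
    obtain ⟨n, hn⟩ := exists_nat_gt (1 - b)
    obtain ⟨A, hA⟩ : ∃ A : ℝ, A = ∑ k ∈ Finset.range n, ((T k : ℝ) / 2) := ⟨_, rfl⟩
    filter_upwards [eventually_ge_atTop (max 1 A)] with t ht
    have ht1 : 1 ≤ t := le_trans (le_max_left _ _) ht
    have htA : A ≤ t := le_trans (le_max_right _ _) ht
    have ht0 : 0 < t := by linarith
    unfold ww
    rw [Real.log_exp, div_le_iff₀ ht0]
    have h1 : ∑ k ∈ Finset.range n, (|t| - |rr T k t|) ≤ theta T t :=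
      (wf_summable hpos hbig t).sum_le_tsum _ (fun k _ => wf_term_nonneg hpos k t)
    have h2 : ∑ k ∈ Finset.range n, (t - (T k : ℝ) / 2) ≤
        ∑ k ∈ Finset.range n, (|t| - |rr T k t|) := by
      apply Finset.sum_le_sum
      intro k _
      have := wf_rr_half hpos k t
      rw [abs_of_pos ht0]
      linarith
    rw [Finset.sum_sub_distrib, ← hA] at h2
    simp only [Finset.sum_const, Finset.card_range, nsmul_eq_mul] at h2
    have h3 : (1 - b) * t ≤ n * t := mul_le_mul_of_nonneg_right hn.le ht0.le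
    nlinarith
  · intro k
    have h1 : theta T (T k) = ((k : ℝ) + 1) * T k := by
      have hk := wf_T_pos hpos k
      have hb : (8 : ℝ) * T k ≤ T (k + 1) := by exact_mod_cast hbig k
      rw [wf_theta_eq hpos hbig (k + 1) (T k) (by rw [abs_of_pos hk]; linarith)]
      have h2 : ∀ j ∈ Finset.range (k + 1), (|(T k : ℝ)| - |rr T j (T k)|) = T k := by
        intro j hj
        rw [wf_rr_T hpos hdvd (by have := Finset.mem_range.1 hj; omega), sub_zero,
          abs_of_pos hk]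
      rw [Finset.sum_congr rfl h2]
      simp
    unfold ww
    rw [h1]

/-- bound for minus the logarithm of the weight, one level -/
theorem theta_le1 (T : ℕ → ℕ) (hpos : ∀ n, 1 ≤ T n) (hdvd : ∀ n, T n ∣ T (n+1))
    (hbig : ∀ n, 8 * T n ≤ T (n+1)) (n : ℕ) (t : ℝ) (ht0 : 0 ≤ t)
    (ht : t < (T (n+1) : ℝ) / 2) :
    theta T t ≤ ((n:ℝ)+1) * t - |rr T n t| := by
  rw [wf_theta_eq hpos hbig (n + 1) t (by rw [abs_of_nonneg ht0]; exact ht),
    Finset.sum_range_succ, abs_of_nonneg ht0]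
  have h1 : ∑ k ∈ Finset.range n, (t - |rr T k t|) ≤ ∑ k ∈ Finset.range n, t :=
    Finset.sum_le_sum fun k _ => by have := abs_nonneg (rr T k t); linarith
  simp only [Finset.sum_const, Finset.card_range, nsmul_eq_mul] at h1
  linarith

/-- bound for minus the logarithm of the weight, two levels -/
theorem theta_le2 (T : ℕ → ℕ) (hpos : ∀ n, 1 ≤ T n) (hdvd : ∀ n, T n ∣ T (n+1))
    (hbig : ∀ n, 8 * T n ≤ T (n+1)) (n : ℕ) (t : ℝ) (ht0 : 0 ≤ t)
    (ht : t < (T (n+2) : ℝ) / 2) :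
    theta T t ≤ ((n:ℝ)+2) * t - |rr T (n+1) t| - |rr T n t| := by
  rw [wf_theta_eq hpos hbig (n + 2) t (by rw [abs_of_nonneg ht0]; exact ht),
    Finset.sum_range_succ, Finset.sum_range_succ, abs_of_nonneg ht0]
  have h1 : ∑ k ∈ Finset.range n, (t - |rr T k t|) ≤ ∑ k ∈ Finset.range n, t :=
    Finset.sum_le_sum fun k _ => by have := abs_nonneg (rr T k t); linarith
  simp only [Finset.sum_const, Finset.card_range, nsmul_eq_mul] at h1
  linarith

end MP6c344
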