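import Pool.Agent.MP6c344.Chi
import Pool.Agent.MP6c344.Weight
import Pool.Agent.MP27fa52.Param

open MeasureTheory Set Filter Topology

set_option linter.unusedSectionVars false

namespace MP6c344

section
variable (T : ℕ → ℕ) (hpos : ∀ n, 1 ≤ T n) (hdvd : ∀ n, T n ∣ T (n+1))
  (hbig : ∀ n, 8 * T n ≤ T (n+1))

theorem measurable_mm (n : ℕ) : Measurable (mm T n) := by
  unfold mm
  simp_rw [round_eq]
  exact Int.measurable_floor.comp (by fun_prop)

theorem measurable_rr (n : ℕ) : Measurable (rr T n) := by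
  unfold rr
  have h1 : Measurable (fun t => ((mm T n t : ℤ) : ℝ)) :=
    (measurable_of_countable (fun k : ℤ => (k : ℝ))).comp (measurable_mm T n)
  exact measurable_id.sub (h1.mul_const _)

include hpos in
theorem mm_nonneg (n : ℕ) (t : ℝ) (ht : 0 ≤ t) : 0 ≤ mm T n t := by
  have hT : (0:ℝ) < T n := by exact_mod_cast hpos n
  unfold mm
  rw [round_eq]
  exact Int.floor_nonneg.2 (by positivity)

include hpos in
theorem mm_zero (n : ℕ) (t : ℝ) (ht : 0 ≤ t) (ht2 : t < (T n : ℝ) / 2) : mm T n t = 0 := by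
  have hT : (0:ℝ) < T n := by exact_mod_cast hpos n
  unfold mm
  rw [round_eq_zero_iff]
  constructor
  · have : 0 ≤ t / (T n : ℝ) := by positivity
    linarith
  · rw [div_lt_iff₀ hT]; linarith

include hpos in
theorem mm_pos' (n : ℕ) (t : ℝ) (ht2 : (T n : ℝ) / 2 ≤ t) : 0 < mm T n t := by
  have hT : (0:ℝ) < T n := by exact_mod_cast hpos n
  unfold mm
  rw [round_eq]
  have h1 : (1:ℝ) ≤ t / (T n : ℝ) + 1/2 := by
    have : 1/2 ≤ t / (T n : ℝ) := by rw [le_div_iff₀ hT]; linarith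
    linarith
  have h2 : (1:ℤ) ≤ ⌊t / (T n : ℝ) + 1/2⌋ := Int.le_floor.2 (by exact_mod_cast h1)
  omega

include hpos in
theorem rr_half (n : ℕ) (t : ℝ) : |rr T n t| ≤ (T n : ℝ) / 2 := by
  have hT : (0:ℝ) < T n := by exact_mod_cast hpos n
  unfold rr mm
  have h := abs_sub_round (t / (T n : ℝ))
  have e : t - (round (t / (T n : ℝ)) : ℝ) * T n = (t / (T n : ℝ) - round (t / (T n : ℝ))) * T n := by
    field_simp
  rw [e, abs_mul, abs_of_pos hT]
  calc _ ≤ 1/2 * (T n : ℝ) := mul_le_mul_of_nonneg_right h hT.le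
    _ = _ := by ring

theorem measurable_E1 (n : ℕ) (l z : ℂ) : Measurable (E1 T n l z) := by
  unfold E1
  have h1 : Measurable (fun t => z ^ (mm T n t).toNat) :=
    (measurable_of_countable (fun k : ℤ => z ^ k.toNat)).comp (measurable_mm T n)
  have h2 : Measurable (fun t => Complex.exp (l * rr T n t)) := by
    have := measurable_rr T n
    fun_prop
  exact h1.mul h2

theorem measurable_E2 (n : ℕ) (l Z z : ℂ) : Measurable (E2 T n l Z z) := by
  unfold E2
  have h0 : Measurable (fun t => Z ^ (mm T (n+1) t).toNat) :=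
    (measurable_of_countable (fun k : ℤ => Z ^ k.toNat)).comp (measurable_mm T (n+1))
  have h1 : Measurable (fun t => z ^ (mm T n t - ((T (n+1) / T n : ℕ) : ℤ) * mm T (n+1) t)) := by
    have : Measurable (fun t => (mm T n t, mm T (n+1) t)) :=
      (measurable_mm T n).prodMk (measurable_mm T (n+1))
    exact (measurable_of_countable
      (fun p : ℤ × ℤ => z ^ (p.1 - ((T (n+1) / T n : ℕ) : ℤ) * p.2))).comp this
  have h2 : Measurable (fun t => Complex.exp (l * rr T n t)) := by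
    have := measurable_rr T n
    fun_prop
  exact (h0.mul h1).mul h2

theorem norm_exp_rr (n : ℕ) (l : ℂ) (t : ℝ) (hl : |l.re + (n+1)| ≤ 1) :
    ‖Complex.exp (l * rr T n t)‖ ≤ Real.exp (-((n:ℝ)+1) * rr T n t + |rr T n t|) := by
  rw [Complex.norm_exp]
  apply Real.exp_le_exp.2
  have : (l * (rr T n t : ℂ)).re = l.re * rr T n t := by simp
  rw [this]
  have h1 : (l.re + (n+1)) * rr T n t ≤ |rr T n t| := by
    calc _ ≤ |(l.re + (n+1)) * rr T n t| := le_abs_self _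
      _ = |l.re + (n+1)| * |rr T n t| := abs_mul _ _
      _ ≤ 1 * |rr T n t| := mul_le_mul_of_nonneg_right hl (abs_nonneg _)
      _ = _ := one_mul _
  linarith

theorem pow_toNat_le (m : ℤ) (hm : 0 ≤ m) (z : ℂ) (c : ℝ) (hz : ‖z‖ ≤ Real.exp c) :
    ‖z ^ m.toNat‖ ≤ Real.exp (c * m) := by
  rw [norm_pow]
  calc ‖z‖ ^ m.toNat ≤ (Real.exp c) ^ m.toNat := pow_le_pow_left₀ (norm_nonneg _) hz _
    _ = Real.exp (c * m) := by
      rw [← Real.exp_nat_mul]
      congr 1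
      have : ((m.toNat : ℕ) : ℝ) = (m : ℝ) := by
        have := Int.toNat_of_nonneg hm
        exact_mod_cast this
      rw [this]; ring

theorem zpow_le_pos (m : ℤ) (hm : 0 ≤ m) (z : ℂ) (c : ℝ) (hz : ‖z‖ ≤ Real.exp c) :
    ‖z ^ m‖ ≤ Real.exp (c * m) := by
  have := pow_toNat_le m hm z c hz
  rwa [← zpow_natCast, Int.toNat_of_nonneg hm] at this

theorem zpow_le_neg (m : ℤ) (hm : m ≤ 0) (z : ℂ) (c : ℝ) (hz : Real.exp c ≤ ‖z‖) :
    ‖z ^ m‖ ≤ Real.exp (c * m) := by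
  have hz0 : 0 < ‖z‖ := lt_of_lt_of_le (Real.exp_pos _) hz
  obtain ⟨k, hk⟩ := Int.eq_ofNat_of_zero_le (neg_nonneg.2 hm)
  have hmk : m = -(k:ℤ) := by omega
  subst hmk
  rw [norm_zpow, zpow_neg, zpow_natCast, show c * ((-(k:ℤ) : ℤ) : ℝ) = -(k * c) by push_cast; ring,
    Real.exp_neg, Real.exp_nat_mul]
  exact inv_anti₀ (by positivity) (pow_le_pow_left₀ (Real.exp_pos _).le hz k)

include hpos hdvd hbig

theorem E1_le (n : ℕ) (l z : ℂ) (hl : |l.re + (n+1)| ≤ 1)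
    (hz : ‖z‖ ≤ Real.exp (-(((n:ℝ)+1) * T n))) (t : ℝ)
    (ht : t ∈ Ioo (0:ℝ) ((T (n+1) : ℝ) / 2)) : ‖E1 T n l z t‖ ≤ ww T t := by
  unfold E1 ww
  rw [norm_mul]
  have h1 := pow_toNat_le (mm T n t) (mm_nonneg T hpos n t ht.1.le) z _ hz
  have h2 := norm_exp_rr T n l t hl
  calc _ ≤ Real.exp (-(((n:ℝ)+1) * T n) * mm T n t) *
        Real.exp (-((n:ℝ)+1) * rr T n t + |rr T n t|) :=
        mul_le_mul h1 h2 (norm_nonneg _) (Real.exp_pos _).le
    _ = Real.exp (-((n:ℝ)+1) * t + |rr T n t|) := by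
        rw [← Real.exp_add]
        congr 1
        unfold rr
        ring
    _ ≤ _ := by
        apply Real.exp_le_exp.2
        have := theta_le1 T hpos hdvd hbig n t ht.1.le ht.2
        linarith

theorem E2_le (n : ℕ) (l Z z : ℂ) (hl : |l.re + (n+1)| ≤ 1)
    (hZ : ‖Z‖ ≤ Real.exp (-(((n:ℝ)+2) * T (n+1))))
    (hz1 : Real.exp (-(((n:ℝ)+2) * T n)) ≤ ‖z‖) (hz : ‖z‖ ≤ Real.exp (-(((n:ℝ)+1) * T n))) (t : ℝ)
    (ht : t ∈ Ioo (0:ℝ) ((T (n+2) : ℝ) / 2)) : ‖E2 T n l Z z t‖ ≤ ww T t := by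
  unfold E2 ww
  rw [norm_mul, norm_mul]
  have hTn : (0:ℝ) < T n := by exact_mod_cast hpos n
  have h1 := pow_toNat_le (mm T (n+1) t) (mm_nonneg T hpos (n+1) t ht.1.le) Z _ hZ
  have h2 := norm_exp_rr T n l t hl
  have hth := theta_le2 T hpos hdvd hbig n t ht.1.le ht.2
  have hN : ((T (n+1) / T n : ℕ) : ℝ) * (T n : ℝ) = T (n+1) := by
    rw [← Nat.cast_mul, Nat.div_mul_cancel (hdvd n)]
  set N : ℕ := T (n+1) / T n with hNdef
  set m : ℤ := mm T n t - (N : ℤ) * mm T (n+1) t with hm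
  have hR : rr T (n+1) t = m * T n + rr T n t := by
    rw [hm]
    unfold rr
    push_cast
    linear_combination (mm T (n+1) t : ℝ) * hN
  have ht' : t = mm T (n+1) t * T (n+1) + rr T (n+1) t := by unfold rr; ring
  have hhalf := rr_half T hpos n t
  have hrle : rr T n t ≤ (T n : ℝ) / 2 := (le_abs_self _).trans hhalf
  have key : ∃ e : ℝ, ‖z ^ m‖ ≤ Real.exp e ∧
      -(((n:ℝ)+2) * T (n+1)) * mm T (n+1) t + e + (-((n:ℝ)+1) * rr T n t + |rr T n t|)
        ≤ -theta T t := by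
    rcases le_total 0 m with h0 | h0
    · refine ⟨_, zpow_le_pos m h0 z _ hz, ?_⟩
      have h3 : rr T (n+1) t ≤ |rr T (n+1) t| := le_abs_self _
      have h4 : ((n:ℝ)+2) * t = ((n:ℝ)+2) * (mm T (n+1) t * T (n+1) + rr T (n+1) t) := by
        rw [← ht']
      rw [h4] at hth
      have h5 : |rr T (n+1) t| ≥ m * T n + rr T n t := by rw [← hR]; exact h3
      have h6 : ((n:ℝ)+2) * rr T (n+1) t = ((n:ℝ)+2) * (m * T n + rr T n t) := by rw [hR]
      nlinarith
    · rcases h0.eq_or_lt with h0 | h0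
      · refine ⟨_, zpow_le_pos m h0.ge z _ hz, ?_⟩
        have h3 : rr T (n+1) t ≤ |rr T (n+1) t| := le_abs_self _
        have h4 : ((n:ℝ)+2) * t = ((n:ℝ)+2) * (mm T (n+1) t * T (n+1) + rr T (n+1) t) := by
          rw [← ht']
        rw [h4] at hth
        have h5 : |rr T (n+1) t| ≥ m * T n + rr T n t := by rw [← hR]; exact h3
        have h6 : ((n:ℝ)+2) * rr T (n+1) t = ((n:ℝ)+2) * (m * T n + rr T n t) := by rw [hR]
        nlinarith
      · refine ⟨_, zpow_le_neg m h0.le z _ hz1, ?_⟩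
        have h3 : -rr T (n+1) t ≤ |rr T (n+1) t| := neg_le_abs _
        have h4 : ((n:ℝ)+2) * t = ((n:ℝ)+2) * (mm T (n+1) t * T (n+1) + rr T (n+1) t) := by
          rw [← ht']
        rw [h4] at hth
        have h5 : |rr T (n+1) t| ≥ -(m * T n + rr T n t) := by rw [← hR]; exact h3
        have h6 : ((n:ℝ)+2) * rr T (n+1) t = ((n:ℝ)+2) * (m * T n + rr T n t) := by rw [hR]
        have hm1 : (m:ℝ) ≤ -1 := by
          have : m ≤ -1 := by omega
          exact_mod_cast this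
        have h7 : (m:ℝ) * T n ≤ -1 * T n := mul_le_mul_of_nonneg_right hm1 hTn.le
        nlinarith
  obtain ⟨e, he1, he2⟩ := key
  calc _ ≤ Real.exp (-(((n:ℝ)+2) * T (n+1)) * mm T (n+1) t) * Real.exp e *
        Real.exp (-((n:ℝ)+1) * rr T n t + |rr T n t|) := by gcongr
    _ = Real.exp (-(((n:ℝ)+2) * T (n+1)) * mm T (n+1) t + e +
        (-((n:ℝ)+1) * rr T n t + |rr T n t|)) := by rw [← Real.exp_add, ← Real.exp_add]
    _ ≤ _ := Real.exp_le_exp.2 he2

end

/-- hypotheses on the test function -/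
structure Adm (T : ℕ → ℕ) (h : ℝ → ℂ) (M : ℝ) : Prop where
  meas : AEStronglyMeasurable h (volume.restrict (Ioi (0:ℝ)))
  int : IntegrableOn (fun t => ‖h t‖ * ww T t) (Ioi 0)
  le : ∫ t in Ioi (0:ℝ), ‖h t‖ * ww T t ≤ M

theorem Adm.bound {T : ℕ → ℕ} {h : ℝ → ℂ} {M : ℝ} (H : Adm T h M) (b : ℝ) (E : ℝ → ℂ)
    (hE : ∀ t ∈ Ioo (0:ℝ) b, ‖E t‖ ≤ ww T t) :
    ‖∫ t in Ioo (0:ℝ) b, h t * E t‖ ≤ M := by
  have hsub : Ioo (0:ℝ) b ⊆ Ioi 0 := fun t ht => ht.1
  have hint : IntegrableOn (fun t => ‖h t‖ * ww T t) (Ioo 0 b) := H.int.mono_set hsub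
  refine le_trans ?_ H.le
  refine le_trans (norm_integral_le_of_norm_le hint ?_) ?_
  · rw [ae_restrict_iff' measurableSet_Ioo]
    filter_upwards with t ht
    rw [norm_mul]
    exact mul_le_mul_of_nonneg_left (hE t ht) (norm_nonneg _)
  · refine setIntegral_mono_set H.int ?_ hsub.eventuallyLE
    filter_upwards with t
    exact mul_nonneg (norm_nonneg _) (Real.exp_pos _).le

theorem region_open (a b : ℝ) : IsOpen {l : ℂ | |l.re + a| < 1 ∧ b < l.im} := by
  exact (isOpen_lt ((Complex.continuous_re.add continuous_const).abs) continuous_const).inter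
    (isOpen_lt continuous_const Complex.continuous_im)

theorem region_re (n : ℕ) (l : ℂ) (hl : |l.re + (n+1)| < 1) : l.re ≤ 1/2 := by
  have := (abs_lt.1 hl).2
  have hn : (0:ℝ) ≤ n := Nat.cast_nonneg n
  linarith

section
variable (T : ℕ → ℕ) (hpos : ∀ n, 1 ≤ T n) (hdvd : ∀ n, T n ∣ T (n+1))
  (hbig : ∀ n, 8 * T n ≤ T (n+1))

/-- two level transform -/
noncomputable def JJ (n : ℕ) (h : ℝ → ℂ) (l z : ℂ) : ℂ :=
  ∫ t in Ioo (0:ℝ) ((T (n+2) : ℝ) / 2), h t * E2 T n l (ZZ T n l z) z t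

theorem chi_diff (n : ℕ) (b : ℝ) (k : ℕ) :
    DifferentiableOn ℂ (chi T k) {l : ℂ | |l.re + (n+1)| < 1 ∧ b < l.im} := by
  unfold chi
  apply DifferentiableOn.div
  · fun_prop
  · fun_prop
  · intro l hl
    exact sub_ne_zero_of_re _ (aa_ge k) l (region_re n l hl.1)

theorem zet_diff (n : ℕ) :
    DifferentiableOn ℂ (zet T n) {l : ℂ | |l.re + (n+1)| < 1 ∧ bot n < l.im} := by
  unfold zet
  apply DifferentiableOn.div
  · apply DifferentiableOn.sub (by fun_prop)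
    apply DifferentiableOn.fun_sum
    intro i _
    exact (chi_diff T n _ i).mul (by fun_prop)
  · exact chi_diff T n _ n
  · intro l hl
    exact chi_ne T n l (region_re n l hl.1) hl.2

theorem ZZ_diff (n : ℕ) (z : ℂ) :
    DifferentiableOn ℂ (fun l => ZZ T n l z) {l : ℂ | |l.re + (n+1)| < 1 ∧ bot (n+1) < l.im} := by
  unfold ZZ
  apply DifferentiableOn.div
  · apply DifferentiableOn.sub
    · apply DifferentiableOn.sub (by fun_prop)
      apply DifferentiableOn.fun_sum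
      intro i _
      exact (chi_diff T n _ i).mul (by fun_prop)
    · exact (chi_diff T n _ n).mul (by fun_prop)
  · exact chi_diff T n _ (n+1)
  · intro l hl
    exact chi_ne T (n+1) l (region_re n l hl.1) hl.2

theorem zet_le' (n : ℕ) (l : ℂ) (hl : |l.re + (n+1)| ≤ 1) (hi : bot n < l.im) :
    ‖zet T n l‖ ≤ Real.exp (-(((n:ℝ)+1) * T n)) := by
  have h1 := zet_le T n l hl hi
  have h2 := Real.exp_pos (-(((n:ℝ)+1) * T n))
  linarith

include hpos hdvd hbig

theorem KK_bound {h : ℝ → ℂ} {M : ℝ} (H : Adm T h M) (n : ℕ) (l : ℂ)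
    (hl : |l.re + (n+1)| ≤ 1) (hi : bot n < l.im) : ‖KK T n h l‖ ≤ M := by
  unfold KK
  apply H.bound
  intro t ht
  exact E1_le T hpos hdvd hbig n l _ hl (zet_le' T n l hl hi) t ht

theorem JJ_bound {h : ℝ → ℂ} {M : ℝ} (H : Adm T h M) (n : ℕ) (l z : ℂ)
    (hl : |l.re + (n+1)| ≤ 1) (hi : bot (n+1) < l.im)
    (hz1 : Real.exp (-(((n:ℝ)+2) * T n)) ≤ ‖z‖) (hz : ‖z‖ ≤ Real.exp (-(((n:ℝ)+1) * T n))) :
    ‖JJ T n h l z‖ ≤ M := by
  unfold JJ
  apply H.bound
  intro t ht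
  exact E2_le T hpos hdvd hbig n l _ z hl (ZZ_le T n l z hl hi hz) hz1 hz t ht

theorem KK_diff {h : ℝ → ℂ} {M : ℝ} (H : Adm T h M) (n : ℕ) :
    DifferentiableOn ℂ (KK T n h) {l : ℂ | |l.re + (n+1)| < 1 ∧ bot n < l.im} := by
  have hsub : Ioo (0:ℝ) ((T (n+1) : ℝ) / 2) ⊆ Ioi 0 := fun t ht => ht.1
  have := MP27fa52.diffOn_integral (region_open ((n:ℝ)+1) (bot n))
    (volume.restrict (Ioo (0:ℝ) ((T (n+1) : ℝ) / 2)))
    (fun l t => h t * E1 T n l (zet T n l) t) (fun t => ‖h t‖ * ww T t)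
    (H.int.mono_set hsub) ?_ ?_ ?_
  · exact this
  · intro l _
    exact (H.meas.mono_measure (Measure.restrict_mono hsub le_rfl)).mul
      (measurable_E1 T n l _).aestronglyMeasurable
  · filter_upwards with t
    unfold E1
    have := zet_diff T n
    exact ((this.pow _).mul (by fun_prop)).const_mul _
  · rw [ae_restrict_iff' measurableSet_Ioo]
    filter_upwards with t ht l hl
    rw [norm_mul]
    refine mul_le_mul_of_nonneg_left ?_ (norm_nonneg _)
    exact E1_le T hpos hdvd hbig n l _ hl.1.le (zet_le' T n l hl.1.le hl.2) t ht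

theorem JJ_diff {h : ℝ → ℂ} {M : ℝ} (H : Adm T h M) (n : ℕ) (z : ℂ)
    (hz1 : Real.exp (-(((n:ℝ)+2) * T n)) ≤ ‖z‖) (hz : ‖z‖ ≤ Real.exp (-(((n:ℝ)+1) * T n))) :
    DifferentiableOn ℂ (fun l => JJ T n h l z)
      {l : ℂ | |l.re + (n+1)| < 1 ∧ bot (n+1) < l.im} := by
  have hsub : Ioo (0:ℝ) ((T (n+2) : ℝ) / 2) ⊆ Ioi 0 := fun t ht => ht.1
  have := MP27fa52.diffOn_integral (region_open ((n:ℝ)+1) (bot (n+1)))
    (volume.restrict (Ioo (0:ℝ) ((T (n+2) : ℝ) / 2)))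
    (fun l t => h t * E2 T n l (ZZ T n l z) z t) (fun t => ‖h t‖ * ww T t)
    (H.int.mono_set hsub) ?_ ?_ ?_
  · exact this
  · intro l _
    exact (H.meas.mono_measure (Measure.restrict_mono hsub le_rfl)).mul
      (measurable_E2 T n l _ _).aestronglyMeasurable
  · filter_upwards with t
    unfold E2
    have := ZZ_diff T n z
    exact (((this.pow _).mul_const _).mul (by fun_prop)).const_mul _
  · rw [ae_restrict_iff' measurableSet_Ioo]
    filter_upwards with t ht l hl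
    rw [norm_mul]
    refine mul_le_mul_of_nonneg_left ?_ (norm_nonneg _)
    exact E2_le T hpos hdvd hbig n l _ z hl.1.le
      (ZZ_le T n l z hl.1.le hl.2 hz) hz1 hz t ht

/-- on the characteristic curve the two level transform is the transform of level `n+1` -/
theorem JJ_curve (n : ℕ) (h : ℝ → ℂ) (l : ℂ) :
    JJ T n h l (Complex.exp (l * T n)) = KK T (n+1) h l := by
  unfold KK JJ
  have hZ : ZZ T n l (Complex.exp (l * T n)) = zet T (n+1) l := by
    unfold ZZ zet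
    rw [Finset.sum_range_succ]
    congr 1
    ring
  rw [hZ]
  congr 1
  ext t
  congr 1
  unfold E1 E2
  rw [mul_assoc]
  congr 1
  rw [← Complex.exp_int_mul, ← Complex.exp_add]
  congr 1
  unfold rr
  have hN : ((T (n+1) / T n : ℕ) : ℂ) * (T n : ℂ) = T (n+1) := by
    rw [← Nat.cast_mul, Nat.div_mul_cancel (hdvd n)]
  generalize T (n+1) / T n = N at hN ⊢
  push_cast
  linear_combination (-(l * (mm T (n+1) t : ℂ))) * hN

theorem JJ_zero (n : ℕ) (h : ℝ → ℂ) (l : ℂ) (hchi : chi T n l ≠ 0) :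
    JJ T n h l (zet T n l) = KK T n h l := by
  unfold KK JJ
  have hZ : ZZ T n l (zet T n l) = 0 := by
    unfold ZZ zet
    rw [mul_div_cancel₀ _ hchi]
    simp
  rw [hZ]
  have hTT : (T (n+1) : ℝ) ≤ T (n+2) := by
    have := hbig (n+1)
    have h2 : T (n+1) ≤ T (n+1+1) := by omega
    exact_mod_cast h2
  have hsub : Ioo (0:ℝ) ((T (n+1) : ℝ) / 2) ⊆ Ioo (0:ℝ) ((T (n+2) : ℝ) / 2) :=
    Ioo_subset_Ioo le_rfl (by linarith)
  rw [setIntegral_eq_of_subset_of_forall_sdiff_eq_zero (s := Ioo (0:ℝ) ((T (n+1) : ℝ) / 2))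
    (t := Ioo (0:ℝ) ((T (n+2) : ℝ) / 2))
    (f := fun t => h t * E2 T n l 0 (zet T n l) t) measurableSet_Ioo hsub]
  · symm
    apply setIntegral_congr_fun measurableSet_Ioo
    intro t ht
    simp only
    congr 1
    unfold E1 E2
    have h1 : mm T (n+1) t = 0 := mm_zero T hpos (n+1) t ht.1.le ht.2
    have h2 := mm_nonneg T hpos n t ht.1.le
    rw [h1]
    simp only [Int.toNat_zero, pow_zero, one_mul, mul_zero, sub_zero]
    congr 1
    conv_rhs => rw [← Int.toNat_of_nonneg h2]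
    rw [zpow_natCast]
  · intro t ht
    have h1 : (T (n+1) : ℝ) / 2 ≤ t := by
      by_contra hcon
      exact ht.2 ⟨ht.1.1, by linarith⟩
    have h2 := mm_pos' T hpos (n+1) t h1
    unfold E2
    rw [zero_pow (by omega)]
    ring

end

end MP6c344
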